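import Pool.Agent.MP_3e5dca_al.H53.Spec

/-! A group that induces the alternating group on the large complement of `Y` contains it. -/

namespace Pool.Agent.MP_3e5dca_al.H53

open Finset Equiv Equiv.Perm MulAction

variable {Ω : Type} [Fintype Ω] [DecidableEq Ω]

omit [Fintype Ω] in
theorem al_eq {Y : Finset Ω} (h : Perm Ω) (c : Perm {p : Ω // p ∉ Y}) (hY : ∀ p ∈ Y, h p = p)
    (hc : ∀ p : {p : Ω // p ∉ Y}, h p.1 = (c p).1) : h = ofSubtype c := by
  refine Equiv.ext fun p => ?_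
  by_cases hp : p ∈ Y
  · rw [hY p hp, ofSubtype_apply_of_not_mem (p := fun p => p ∉ Y) c (not_not.2 hp)]
  · rw [ofSubtype_apply_of_mem (p := fun p => p ∉ Y) c hp]
    exact hc ⟨p, hp⟩

omit [Fintype Ω] [DecidableEq Ω] in
theorem al_inv {Y : Finset Ω} (h : Perm Ω) (c : Perm {p : Ω // p ∉ Y})
    (hc : ∀ p : {p : Ω // p ∉ Y}, h p.1 = (c p).1) (p : {p : Ω // p ∉ Y}) :
    h⁻¹ p.1 = (c⁻¹ p).1 := by
  rw [Perm.inv_eq_iff_eq, hc, ← Perm.mul_apply, mul_inv_cancel, Perm.one_apply]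

theorem al_card (Y : Finset Ω) (hY : 3 * Y.card + 5 ≤ Fintype.card Ω) :
    5 ≤ Nat.card {p : Ω // p ∉ Y} ∧
      Fintype.card (Perm {p : Ω // p ∈ Y}) < Fintype.card (alternatingGroup {p : Ω // p ∉ Y}) := by
  have h1 : Fintype.card {p : Ω // p ∈ Y} = Y.card := Fintype.card_coe Y
  have h2 : Fintype.card {p : Ω // p ∉ Y} = Fintype.card Ω - Y.card := by
    rw [Fintype.card_subtype_compl, h1]
  have h3 : 5 ≤ Fintype.card {p : Ω // p ∉ Y} := by omega
  refine ⟨by rwa [Nat.card_eq_fintype_card], ?_⟩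
  have : Nontrivial {p : Ω // p ∉ Y} := Fintype.one_lt_card_iff_nontrivial.1 (by omega)
  have h4 := two_mul_card_alternatingGroup (α := {p : Ω // p ∉ Y})
  rw [Fintype.card_perm] at h4
  rw [Fintype.card_perm, h1]
  have h5 : (Y.card + 1 + 1 + 1).factorial ≤ (Fintype.card {p : Ω // p ∉ Y}).factorial :=
    Nat.factorial_le (by omega)
  have h6 : (Y.card).factorial ≤ (Y.card + 1 + 1).factorial := Nat.factorial_le (by omega)
  have h7 := Nat.factorial_pos Y.card
  rw [Nat.factorial_succ] at h5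
  nlinarith

theorem typ_of_lift : S_alt := by
  intro Ω _ _ H Y hpres hY hlift
  obtain ⟨h5, hlt⟩ := al_card Y hY
  let N : Subgroup (alternatingGroup {p : Ω // p ∉ Y}) :=
    (H.comap (ofSubtype (p := fun p => p ∉ Y))).comap (alternatingGroup _).subtype
  have hN : ∀ c, c ∈ N ↔ ofSubtype (c : Perm {p : Ω // p ∉ Y}) ∈ H := fun _ => Iff.rfl
  choose f hfH hf using fun c : alternatingGroup {p : Ω // p ∉ Y} =>
    hlift c.1 (mem_alternatingGroup.1 c.2)
  have : N.Normal := ⟨fun c hc g => by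
    rw [hN] at hc ⊢
    rw [← al_eq (f g * ofSubtype (c : Perm {p : Ω // p ∉ Y}) * (f g)⁻¹) _ (fun p hp => ?_)
      (fun p => ?_)]
    · exact H.mul_mem (H.mul_mem (hfH g) hc) (H.inv_mem (hfH g))
    · have h1 : (f g)⁻¹ p ∈ Y := (hpres _ (H.inv_mem (hfH g)) p).2 hp
      rw [Perm.mul_apply, Perm.mul_apply,
        ofSubtype_apply_of_not_mem (p := fun p => p ∉ Y) _ (not_not.2 h1), ← Perm.mul_apply,
        mul_inv_cancel, Perm.one_apply]
    · rw [Perm.mul_apply, Perm.mul_apply, al_inv _ _ (hf g), ofSubtype_apply_coe, hf g]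
      rfl⟩
  have hne : N ≠ ⊥ := by
    intro hb
    obtain ⟨c, c', hcc, he⟩ := Fintype.exists_ne_map_eq_of_card_lt
      (fun c => (f c).subtypePerm (p := fun p => p ∈ Y) (hpres _ (hfH c))) hlt
    have h1 : c⁻¹ * c' ∈ N := by
      rw [hN, ← al_eq ((f c)⁻¹ * f c') _ (fun p hp => ?_) (fun p => ?_)]
      · exact H.mul_mem (H.inv_mem (hfH c)) (hfH c')
      · have h2 := congrArg Subtype.val (Equiv.congr_fun he ⟨p, hp⟩)
        rw [Perm.mul_apply, Perm.inv_eq_iff_eq]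
        exact h2.symm
      · rw [Perm.mul_apply, hf c', al_inv _ _ (hf c)]
        rfl
    rw [hb, Subgroup.mem_bot, inv_mul_eq_one] at h1
    exact hcc h1
  have htop : N = ⊤ := (alternatingGroup.normal_subgroup_eq_bot_or_eq_top h5).resolve_left hne
  refine ⟨fun g hg hfix => ?_, hpres⟩
  have h1 : ∀ p, g p ∉ Y ↔ p ∉ Y := fun p => not_congr
    ⟨fun h => by rwa [g.injective (hfix _ h)] at h, fun h => by rwa [hfix p h]⟩
  have h2 : g = ofSubtype (g.subtypePerm (p := fun p => p ∉ Y) h1) :=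
    al_eq g _ hfix fun _ => rfl
  have h3 : g.subtypePerm (p := fun p => p ∉ Y) h1 ∈ alternatingGroup {p : Ω // p ∉ Y} := by
    rw [mem_alternatingGroup, ← sign_ofSubtype, ← h2, hg]
  rw [h2]
  exact (hN ⟨_, h3⟩).1 (htop ▸ Subgroup.mem_top _)

end Pool.Agent.MP_3e5dca_al.H53
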