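import Pool.Agent.MP_3e5dca_al.H53.Cases

/-! Assembly. -/

namespace Pool.Agent.MP_3e5dca_al.H53

open Finset Equiv Equiv.Perm MulAction

variable {Ω : Type} [Fintype Ω] [DecidableEq Ω]

theorem exists_M (n : ℕ) (hn : 100000 ≤ n) :
    ∃ M : ℕ, 400 ≤ M ∧ 2 * n ≤ 2 + M * (M + 1) ∧ M * M + 4 ≤ 2 * n + M := by
  classical
  have hex : ∃ M : ℕ, 2 * n ≤ 2 + M * (M + 1) := ⟨2 * n, by nlinarith⟩
  have h1 := Nat.find_spec hex
  have h0 : 400 ≤ Nat.find hex := by
    by_contra hc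
    have : Nat.find hex * (Nat.find hex + 1) ≤ 400 * 400 := Nat.mul_le_mul (by omega) (by omega)
    omega
  obtain ⟨m, hm⟩ : ∃ m, Nat.find hex = m + 1 := ⟨Nat.find hex - 1, by omega⟩
  have h2 := Nat.find_min hex (m := m) (by omega)
  refine ⟨_, h0, h1, ?_⟩
  rw [hm]
  obtain ⟨c, hc⟩ := Nat.even_mul_succ_self m
  have : (m + 1) * (m + 1) = m * (m + 1) + (m + 1) := by ring
  omega

theorem small_ok (n M b : ℕ) (hM0 : 400 ≤ M) (hM2 : M * M + 4 ≤ 2 * n + M) (hb1 : 1 ≤ b)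
    (hb : b ≤ M + 1) : ∃ J, 2 ≤ J ∧ 2 * n ≤ b * J + 4 ∧ b * J + 3 ≤ 2 * n + J := by
  have hbig : 100 * M ≤ n := by nlinarith
  obtain ⟨N, hN⟩ : ∃ N, 2 * n = N + 4 := ⟨2 * n - 4, by omega⟩
  have h1 := Nat.div_add_mod (N + b - 1) b
  have h2 := Nat.mod_lt (N + b - 1) (show b > 0 by omega)
  set J := (N + b - 1) / b with hJ
  have h3 : N ≤ b * J := by omega
  have h4 : b * J + 1 ≤ N + b := by omega
  refine ⟨J, ?_, by omega, ?_⟩
  · by_contra hc
    have : b * J ≤ b * 1 := Nat.mul_le_mul_left _ (by omega)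
    omega
  · by_contra hc
    have h5 : J + 3 ≤ b := by omega
    clear_value J
    obtain ⟨c, rfl⟩ : ∃ c, b = c + 3 := ⟨b - 3, by omega⟩
    have h7 : (c + 3) * J ≤ (c + 3) * c := Nat.mul_le_mul_left _ (by omega)
    obtain ⟨m, rfl⟩ : ∃ m, M = m + 2 := ⟨M - 2, by omega⟩
    have h8 : (c + 3) * c ≤ (m + 3) * m := Nat.mul_le_mul (by omega) (by omega)
    nlinarith

theorem ebase_erase {H : Subgroup (Perm Ω)} {Y : Finset Ω} (hT : Typ H Y) (y : Ω) :
    EBase H Y (Y.erase y) := by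
  refine ⟨erase_subset _ _, fun g hg _ hfix p hp => ?_⟩
  by_cases h : p = y
  · by_contra hc
    have h1 : g p ∈ Y.erase y := mem_erase.mpr ⟨h ▸ hc, (hT.pres g hg p).mpr hp⟩
    exact hc (g.injective (hfix _ h1))
  · exact hfix p (mem_erase.mpr ⟨h, hp⟩)

theorem forward (H1 : S_bochert) (H2 : S_two) (H3 : S_uni) (H4 : S_fam) (H5 : S_imp)
    (H6 : S_jordan) (H7 : S_alt) (hn : 100000 ≤ Fintype.card Ω) {X : Type} [Finite X]
    [MulAction (Perm Ω) X] [FaithfulSMul (Perm Ω) X] (B : Finset X) (hB : IsBase (Perm Ω) B)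
    (hmin : ∀ A : Finset X, IsBase (Perm Ω) A → B.card ≤ A.card) :
    ∃ J, 2 ≤ J ∧ 2 * Fintype.card Ω ≤ B.card * J + 4 ∧
      B.card * J + 3 ≤ 2 * Fintype.card Ω + J := by
  classical
  obtain ⟨M, hM0, hM1, hM2⟩ := exists_M _ hn
  obtain ⟨a, -, b, -, c, -, hab, hac, hbc⟩ :=
    two_lt_card.mp (by rw [card_univ]; omega : 2 < (univ : Finset Ω).card)
  have hne : swap a b * swap a c ≠ 1 := by
    intro h
    have h2 := congrArg (fun g : Perm Ω => g c) h
    simp only [Perm.mul_apply, swap_apply_right, swap_apply_left, Perm.one_apply] at h2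
    exact hbc h2
  have hle : ∀ m, HasBase (Perm Ω) X m → B.card ≤ m := by
    rintro m ⟨A, h1, h2⟩
    exact (hmin A h2).trans h1
  by_cases hs : HasBase (Perm Ω) X (M + 1)
  · apply small_ok _ M _ hM0 hM2 _ (hle _ hs)
    by_contra hc
    have : B = ∅ := card_eq_zero.mp (by omega)
    exact hne (hB _ (by simp [this]))
  have hall : ∀ x : X, ∃ Y : Finset Ω, Y.card < M ∧ Typ (stabilizer (Perm Ω) x) Y :=
    fun x => (dichotomy H1 H2 H3 H4 H5 H6 H7 M hM0 hM1 hM2 x).resolve_left hs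
  choose Y hYc hT using hall
  have hβ : ∀ x : X, ∃ S, EBase (stabilizer (Perm Ω) x) (Y x) S ∧
      ∀ S', EBase (stabilizer (Perm Ω) x) (Y x) S' → S.card ≤ S'.card := by
    intro x
    obtain ⟨S, hS, hm⟩ := exists_min_image
      ((univ : Finset (Finset Ω)).filter (fun S => EBase (stabilizer (Perm Ω) x) (Y x) S)) card
      ⟨Y x, mem_filter.mpr ⟨mem_univ _, Subset.refl _, fun g _ _ h => h⟩⟩
    exact ⟨S, (mem_filter.mp hS).2, fun S' h => hm S' (mem_filter.mpr ⟨mem_univ _, h⟩)⟩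
  choose S hS hSmin using hβ
  have hlt : ∀ x, 0 < (Y x).card → (S x).card < (Y x).card := by
    intro x hx
    obtain ⟨y, hy⟩ := card_pos.mp hx
    have := hSmin x _ (ebase_erase (hT x) y)
    rw [card_erase_of_mem hy] at this
    omega
  obtain ⟨x1, hx1⟩ : ∃ x, 0 < (Y x).card := by
    by_contra hc
    push Not at hc
    apply hne
    apply hB
    intro x _
    apply (hT x).alt _ (by simp [hab, hac])
    intro p hp
    have := card_pos.mpr ⟨p, hp⟩
    have := hc x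
    omega
  have : Nonempty X := ⟨x1⟩
  obtain ⟨x0, hx0⟩ := Finite.exists_max (fun x : X => 2 * (Y x).card - (S x).card)
  set J := 2 * (Y x0).card - (S x0).card with hJ
  have hJ2 : 2 ≤ J := by
    have h1 := hx0 x1
    have h2 := hlt x1 hx1
    omega
  have hk0 : 0 < (Y x0).card := by omega
  have hlt0 := hlt x0 hk0
  refine ⟨J, hJ2, lower hB Y J (fun x _ => hT x) (fun x _ S' hS' => ?_), ?_⟩
  · have h1 := hx0 x
    have h2 := hSmin x S' hS'
    omega
  · obtain ⟨N, hN⟩ : ∃ N, 2 * Fintype.card Ω = N + 2 := ⟨2 * Fintype.card Ω - 2, by omega⟩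
    have h1 := Nat.div_add_mod (N + J - 1) J
    have h2 := Nat.mod_lt (N + J - 1) (show J > 0 by omega)
    set m := (N + J - 1) / J with hm
    rw [mul_comm] at h1
    have hk : (Y x0).card * ((Y x0).card + 1) + 4 ≤ 2 * Fintype.card Ω := by
      have h3 := hYc x0
      obtain ⟨M', rfl⟩ : ∃ M', M = M' + 1 := ⟨M - 1, by omega⟩
      have h4 : (Y x0).card * ((Y x0).card + 1) ≤ M' * (M' + 1) :=
        Nat.mul_le_mul (by omega) (by omega)
      nlinarith
    have := hle m (upper (hT x0) (hS x0) J m hk hlt0 (by omega) (by omega) (by omega))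
    have h5 : B.card * J ≤ m * J := Nat.mul_le_mul_right _ this
    omega

theorem backward (R0 : S_real0) (R1 : S_real1) (R2 : S_real2) (hn : 100000 ≤ Fintype.card Ω)
    (b J : ℕ) (hJ : 2 ≤ J) (h1 : 2 * Fintype.card Ω ≤ b * J + 4)
    (h2 : b * J + 3 ≤ 2 * Fintype.card Ω + J) : Realised (Perm Ω) b := by
  set k := (J + 1) / 2 with hk
  have hkJ : J = 2 * k ∨ J + 1 = 2 * k := by omega
  by_cases hsm : k * (k + 1) + 4 ≤ 2 * Fintype.card Ω
  · by_cases h3 : 2 * Fintype.card Ω ≤ b * J + 2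
    · exact R1 Ω k J b hJ hkJ hsm h3 h2
    · exact R2 Ω k J b hJ hkJ hsm h1 (by omega)
  · have hb : 1 ≤ b := by
      by_contra hc
      have : b = 0 := by omega
      rw [this] at h1
      omega
    obtain ⟨c, rfl⟩ : ∃ c, b = c + 1 := ⟨b - 1, by omega⟩
    have h4 : c * J + 3 ≤ 2 * Fintype.card Ω := by
      have : (c + 1) * J = c * J + J := by ring
      omega
    have hk4 : 4 ≤ k := by
      by_contra hc
      have : k * (k + 1) ≤ 3 * 4 := Nat.mul_le_mul (by omega) (by omega)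
      omega
    have h5 : c + 2 ≤ k := by
      by_contra hc
      obtain ⟨k', hk'⟩ : ∃ k', k = k' + 1 := ⟨k - 1, by omega⟩
      have h6 : k' * (2 * k' + 1) ≤ c * J := Nat.mul_le_mul (by omega) (by omega)
      rw [hk'] at hsm
      have : 3 ≤ k' := by omega
      nlinarith
    have h6 : c * (2 * (c + 1)) ≤ c * J := Nat.mul_le_mul_left _ (by omega)
    obtain ⟨N, hN⟩ : ∃ N, Fintype.card Ω = N + 1 := ⟨Fintype.card Ω - 1, by omega⟩
    have h7 := Nat.div_add_mod (N + c) (c + 1)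
    have h8 := Nat.mod_lt (N + c) (show c + 1 > 0 by omega)
    set k' := (N + c) / (c + 1) with hk'
    have h9 : c + 1 ≤ k' := by
      by_contra hc
      have : (c + 1) * k' ≤ (c + 1) * c := Nat.mul_le_mul_left _ (by omega)
      nlinarith
    apply R0 Ω k' (c + 1) _ (by omega) (by omega)
    have : (c + 1) * k' = c * k' + k' := by ring
    have : c * 1 ≤ c * k' := Nat.mul_le_mul_left _ (by omega)
    omega

theorem ceil_iff (N J b : ℕ) (hN : 0 < N) (hJ : 0 < J) :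
    b = ⌈(N : ℚ) / J⌉₊ ↔ N ≤ b * J ∧ b * J < N + J := by
  have hJ' : (0 : ℚ) < J := by exact_mod_cast hJ
  rcases b with _ | b
  · constructor
    · intro h
      have := Nat.ceil_eq_zero.mp h.symm
      have h2 : (0 : ℚ) < (N : ℚ) / J := div_pos (by exact_mod_cast hN) hJ'
      linarith
    · intro h
      omega
  · rw [eq_comm, Nat.ceil_eq_iff (by omega), lt_div_iff₀ hJ', div_le_iff₀ hJ', Nat.add_sub_cancel]
    have : (b + 1) * J = b * J + J := by ring
    constructor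
    · rintro ⟨h1, h2⟩
      have h3 : b * J < N := by exact_mod_cast h1
      have h4 : N ≤ (b + 1) * J := by exact_mod_cast h2
      omega
    · rintro ⟨h1, h2⟩
      have h3 : b * J < N := by omega
      exact ⟨by exact_mod_cast h3, by exact_mod_cast h1⟩

theorem main_of (H1 : S_bochert) (H2 : S_two) (H3 : S_uni) (H4 : S_fam) (H5 : S_imp)
    (H6 : S_jordan) (H7 : S_alt) (R0 : S_real0) (R1 : S_real1) (R2 : S_real2)
    (n : ℕ) (hn : 100000 ≤ n) (b : ℕ) :
    (∃ (X : Type) (_ : Finite X) (_ : MulAction (Equiv.Perm (Fin n)) X),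
      FaithfulSMul (Equiv.Perm (Fin n)) X ∧
      IsLeast {m : ℕ | ∃ B : Finset X, B.card = m ∧
        ∀ g : Equiv.Perm (Fin n), (∀ x ∈ B, g • x = x) → g = 1} b) ↔
    ∃ j : ℕ, 2 ≤ j ∧
      (b = ⌈2 * ((n : ℚ) - 1) / j⌉₊ ∨ b = ⌈2 * ((n : ℚ) - 2) / j⌉₊) := by
  obtain ⟨N, rfl⟩ : ∃ N, n = N + 2 := ⟨n - 2, by omega⟩
  have e1 : 2 * (((N + 2 : ℕ) : ℚ) - 1) = ((2 * N + 2 : ℕ) : ℚ) := by push_cast; ring
  have e2 : 2 * (((N + 2 : ℕ) : ℚ) - 2) = ((2 * N : ℕ) : ℚ) := by push_cast; ring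
  have hc : Fintype.card (Fin (N + 2)) = N + 2 := Fintype.card_fin _
  rw [e1, e2]
  constructor
  · rintro ⟨X, _, _, _, ⟨B, rfl, hB⟩, hmin⟩
    obtain ⟨J, hJ, h1, h2⟩ := forward H1 H2 H3 H4 H5 H6 H7 (by rw [hc]; exact hn) B hB
      (fun A hA => hmin ⟨A, rfl, hA⟩)
    rw [hc] at h1 h2
    refine ⟨J, hJ, ?_⟩
    rw [ceil_iff _ _ _ (by omega) (by omega), ceil_iff _ _ _ (by omega) (by omega)]
    omega
  · rintro ⟨J, hJ, h⟩
    rw [ceil_iff _ _ _ (by omega) (by omega), ceil_iff _ _ _ (by omega) (by omega)] at h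
    obtain ⟨X, i1, i2, hf, ⟨B, hBc, hB⟩, hmin⟩ :=
      backward (Ω := Fin (N + 2)) R0 R1 R2 (by rw [hc]; exact hn) b J hJ
        (by rw [hc]; omega) (by rw [hc]; omega)
    refine ⟨X, i1, i2, hf, ⟨B, le_antisymm hBc (hmin B hB), hB⟩, ?_⟩
    rintro m ⟨A, rfl, hA⟩
    exact hmin A hA

end Pool.Agent.MP_3e5dca_al.H53
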