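import Pool.Agent.MP_3e5dca_al.H53.Spec

/-! The case analysis for one point stabiliser. -/

namespace Pool.Agent.MP_3e5dca_al.H53

open Finset Equiv Equiv.Perm MulAction

variable {Ω : Type} [Fintype Ω] [DecidableEq Ω]

theorem exists_move (Y Y' : Finset Ω) (h : Y.card = Y'.card) :
    ∃ σ : Perm Ω, ∀ p, σ p ∈ Y' ↔ p ∈ Y := by
  obtain ⟨σ, hσ, -⟩ := perm_map ∅ Y ∅ Y' (empty_subset _) (empty_subset _) le_rfl h
  exact ⟨σ, hσ⟩

theorem orbit_split (H : Subgroup (Perm Ω)) (M : ℕ) (hM : 0 < M) (h3 : 3 * M ≤ Fintype.card Ω)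
    (hno : ∀ Y : Finset Ω, (∀ g ∈ H, ∀ p, g p ∈ Y ↔ p ∈ Y) → M ≤ Y.card →
      Fintype.card Ω < Y.card + M) :
    ∃ Y : Finset Ω, Y.card < M ∧ (∀ g ∈ H, ∀ p, g p ∈ Y ↔ p ∈ Y) ∧
      ∀ a b, a ∉ Y → b ∉ Y → ∃ g ∈ H, g a = b := by
  classical
  obtain ⟨Y0, hY0, hmax⟩ := exists_max_image
    ((univ : Finset (Finset Ω)).filter (fun Y => (∀ g ∈ H, ∀ p, g p ∈ Y ↔ p ∈ Y) ∧ Y.card < M))
    card ⟨∅, by simp [hM]⟩
  simp only [mem_filter, mem_univ, true_and] at hY0 hmax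
  obtain ⟨p, hp⟩ : ∃ p, p ∉ Y0 := by
    by_contra hc
    push Not at hc
    have : Y0 = univ := eq_univ_of_forall hc
    rw [this, card_univ] at hY0
    omega
  set O := univ.filter (fun q => ∃ g ∈ H, g p = q) with hO
  have hOm : ∀ q, q ∈ O ↔ ∃ g ∈ H, g p = q := by simp [hO]
  have hOinv : ∀ g ∈ H, ∀ q, g q ∈ O ↔ q ∈ O := by
    intro g hg q
    rw [hOm, hOm]
    constructor
    · rintro ⟨h, hh, he⟩
      exact ⟨g⁻¹ * h, H.mul_mem (H.inv_mem hg) hh, by simp [Perm.mul_apply, he]⟩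
    · rintro ⟨h, hh, he⟩
      exact ⟨g * h, H.mul_mem hg hh, by simp [Perm.mul_apply, he]⟩
  have hpO : p ∈ O := (hOm p).mpr ⟨1, H.one_mem, rfl⟩
  have hU : ∀ g ∈ H, ∀ q, g q ∈ Y0 ∪ O ↔ q ∈ Y0 ∪ O := by
    intro g hg q
    rw [mem_union, mem_union, hY0.1 g hg, hOinv g hg]
  have hlt : Y0.card < (Y0 ∪ O).card :=
    card_lt_card ⟨subset_union_left, fun h => hp (h (mem_union_right _ hpO))⟩
  have hbig : M ≤ (Y0 ∪ O).card := by
    by_contra hc
    have := hmax _ ⟨hU, by omega⟩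
    omega
  have h1 := hno _ hU hbig
  have h2 := card_union_le Y0 O
  have h4 := hno O hOinv (by omega)
  refine ⟨Oᶜ, by rw [card_compl]; omega, fun g hg q => ?_, fun a b ha hb => ?_⟩
  · rw [mem_compl, mem_compl, hOinv g hg]
  · obtain ⟨g, hg, rfl⟩ := (hOm a).mp (by simpa using ha)
    obtain ⟨h, hh, rfl⟩ := (hOm b).mp (by simpa using hb)
    exact ⟨h * g⁻¹, H.mul_mem hh (H.inv_mem hg), by simp [Perm.mul_apply]⟩

/-- The group induced on the complement of `Y`. -/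
def resG (H : Subgroup (Perm Ω)) (Y : Finset Ω) : Subgroup (Perm {p : Ω // p ∉ Y}) where
  carrier := {c | ∃ h ∈ H, ∀ p : {p : Ω // p ∉ Y}, h p.1 = (c p).1}
  one_mem' := ⟨1, H.one_mem, fun _ => rfl⟩
  mul_mem' := by
    rintro a b ⟨g, hg, ha⟩ ⟨h, hh, hb⟩
    exact ⟨g * h, H.mul_mem hg hh, fun p => by rw [Perm.mul_apply, hb, ha, Perm.mul_apply]⟩
  inv_mem' := by
    rintro a ⟨g, hg, ha⟩
    refine ⟨g⁻¹, H.inv_mem hg, fun p => ?_⟩
    rw [Perm.inv_eq_iff_eq, ha]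
    simp

variable {X : Type} [MulAction (Perm Ω) X]

theorem case_one (x : X) (M : ℕ) (hM : 2 * Fintype.card Ω ≤ 2 + M * (M + 1)) (Y : Finset Ω)
    (hY : ∀ g ∈ stabilizer (Perm Ω) x, ∀ p, g p ∈ Y ↔ p ∈ Y) (h1 : M ≤ Y.card)
    (h2 : Y.card + M ≤ Fintype.card Ω) : HasBase (Perm Ω) X M := by
  classical
  have main : ∀ Y : Finset Ω, (∀ g ∈ stabilizer (Perm Ω) x, ∀ p, g p ∈ Y ↔ p ∈ Y) →
      M ≤ Y.card → 2 * Y.card ≤ Fintype.card Ω → HasBase (Perm Ω) X M := by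
    intro Y hY h1 h2
    obtain ⟨W, hW, hc⟩ := sep_exact M Y.card hM h1 h2
    choose σ hσ using fun i => exists_move Y (W i) (hc i).symm
    refine ⟨univ.image (fun i => σ i • x), card_image_le.trans (by simp), fun g hg => ?_⟩
    ext p
    exact hW _ _ fun i => conj_pres hY (hσ i) (hg _ (mem_image_of_mem _ (mem_univ i))) p
  by_cases h : 2 * Y.card ≤ Fintype.card Ω
  · exact main Y hY h1 h
  · apply main Yᶜ
    · intro g hg p
      rw [mem_compl, mem_compl, hY g hg]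
    · rw [card_compl]; omega
    · rw [card_compl]; omega

theorem transfer [FaithfulSMul (Perm Ω) X] (x : X) (Y : Finset Ω)
    (hY : ∀ g ∈ stabilizer (Perm Ω) x, ∀ p, g p ∈ Y ↔ p ∈ Y)
    (h2 : 2 * Y.card ≤ Fintype.card Ω) (L r : ℕ) (hL : Fintype.card Ω ≤ 2 ^ L)
    (hF : Fam (resG (stabilizer (Perm Ω) x) Y) r) : HasBase (Perm Ω) X (1 + r + L + L) := by
  classical
  obtain ⟨T, p0, hT, hfam⟩ := hF
  obtain ⟨Z, hZ⟩ := sep_binary (Ω := Ω) L hL
  have hex : ∀ i, ∃ Y' : Finset Ω, Y.card = Y'.card ∧ ∀ p ∈ Y, p ∈ Y' ↔ p ∈ Z i := by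
    intro i
    have h3 : (Z i ∩ Y).card ≤ Y.card := card_le_card inter_subset_right
    obtain ⟨E, hE, hEc⟩ := exists_subset_card_eq (s := Yᶜ) (n := Y.card - (Z i ∩ Y).card)
      (by rw [card_compl]; omega)
    refine ⟨(Z i ∩ Y) ∪ E, ?_, fun p hp => ?_⟩
    · rw [card_union_of_disjoint, hEc]
      · omega
      · rw [disjoint_left]
        intro p hp hpE
        exact mem_compl.mp (hE hpE) (mem_inter.mp hp).2
    · have : p ∉ E := fun h => mem_compl.mp (hE h) hp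
      simp [hp, this]
  choose Y' hY'c hY' using hex
  choose τ hτ using fun i => exists_move Y (Y' i) (hY'c i)
  set A : Finset X := insert x (T.image (fun σ => ofSubtype σ • x) ∪
    univ.image (fun i => τ i • x)) with hA
  have hAc : A.card ≤ 1 + r + L := by
    have a1 := card_insert_le x (T.image (fun σ => ofSubtype σ • x) ∪ univ.image (fun i => τ i • x))
    have a2 := card_union_le (T.image (fun σ => ofSubtype σ • x)) (univ.image (fun i => τ i • x))
    have a3 : (T.image (fun σ => ofSubtype σ • x)).card ≤ T.card := card_image_le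
    have a4 : (univ.image (fun i => τ i • x)).card ≤ L := card_image_le.trans (by simp)
    rw [hA]; omega
  have key : ∀ g : Perm Ω, (∀ a ∈ A, g • a = a) → g p0.1 = p0.1 → g = 1 := by
    intro g hg hp0
    have hgx : g ∈ stabilizer (Perm Ω) x := hg x (mem_insert_self _ _)
    have hfixY : ∀ p ∈ Y, g p = p := by
      intro p hp
      apply hZ
      intro i
      rw [← hY' i p hp, ← hY' i (g p) ((hY g hgx p).mpr hp)]
      exact conj_pres hY (hτ i) (hg _ (mem_insert_of_mem (mem_union_right _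
        (mem_image_of_mem _ (mem_univ i))))) p
    have hsub : ∀ p, g p ∉ Y ↔ p ∉ Y := fun p => not_congr (hY g hgx p)
    have hc := hfam (g.subtypePerm (p := fun p => p ∉ Y) hsub) (fun σ hσ => by
      refine ⟨_, conj_mem (hg _ (mem_insert_of_mem (mem_union_left _
        (mem_image_of_mem (fun σ => ofSubtype σ • x) hσ)))), fun p => ?_⟩
      rw [Perm.mul_apply, Perm.mul_apply, ofSubtype_apply_coe, ← map_inv]
      have : g (σ p).1 = ((g.subtypePerm (p := fun p => p ∉ Y) hsub) (σ p)).1 := rfl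
      rw [this, ofSubtype_apply_coe]
      rfl) (Subtype.ext hp0)
    ext p
    by_cases hp : p ∈ Y
    · exact hfixY p hp
    · exact congrArg (fun c : Perm {p : Ω // p ∉ Y} => (c ⟨p, hp⟩).1) hc
  have hcard : Nat.card (fixingSubgroup (Perm Ω) (A : Set X)) ≤ 2 ^ L := by
    refine le_trans ?_ hL
    rw [← Nat.card_eq_fintype_card]
    apply Nat.card_le_card_of_injective (fun g => g.1 p0.1)
    intro g h hgh
    have hm : h.1⁻¹ * g.1 ∈ fixingSubgroup (Perm Ω) (A : Set X) :=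
      Subgroup.mul_mem _ (Subgroup.inv_mem _ h.2) g.2
    rw [mem_fixingSubgroup_iff] at hm
    have := key _ (fun a ha => hm a ha) (by
      rw [Perm.mul_apply, Perm.inv_eq_iff_eq]; exact hgh)
    exact Subtype.ext (inv_mul_eq_one.mp this).symm
  exact (chain L A hcard).mono (by omega)

theorem two_pow_bound (L : ℕ) (hL : 16 ≤ L) : 200 * (L + 1) ^ 2 + 1 ≤ 2 ^ L := by
  induction L, hL using Nat.le_induction with
  | base => norm_num
  | succ L hL ih => rw [pow_succ 2 L]; nlinarith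

theorem dichotomy (H1 : S_bochert) (H2 : S_two) (H3 : S_uni) (H4 : S_fam) (H5 : S_imp)
    (H6 : S_jordan) (H7 : S_alt) [FaithfulSMul (Perm Ω) X] (M : ℕ) (hM0 : 400 ≤ M)
    (hM1 : 2 * Fintype.card Ω ≤ 2 + M * (M + 1))
    (hM2 : M * M + 4 ≤ 2 * Fintype.card Ω + M) (x : X) :
    HasBase (Perm Ω) X (M + 1) ∨ ∃ Y : Finset Ω, Y.card < M ∧ Typ (stabilizer (Perm Ω) x) Y := by
  classical
  have hbig : 100 * M ≤ Fintype.card Ω := by nlinarith
  by_cases hI : ∃ Y : Finset Ω, (∀ g ∈ stabilizer (Perm Ω) x, ∀ p, g p ∈ Y ↔ p ∈ Y) ∧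
      M ≤ Y.card ∧ Y.card + M ≤ Fintype.card Ω
  · obtain ⟨Y, h1, h2, h3⟩ := hI
    exact Or.inl ((case_one x M hM1 Y h1 h2 h3).mono (by omega))
  push Not at hI
  obtain ⟨Y, hYc, hY, htr⟩ := orbit_split (stabilizer (Perm Ω) x) M (by omega) (by omega) hI
  set G := resG (stabilizer (Perm Ω) x) Y with hG
  have hn' : Fintype.card {p : Ω // p ∉ Y} + Y.card = Fintype.card Ω := by
    rw [Fintype.card_subtype_compl, Fintype.card_coe]
    have := card_le_univ Y
    omega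
  have hTra : Tra G := by
    intro a b
    obtain ⟨g, hg, hab⟩ := htr a.1 b.1 a.2 b.2
    exact ⟨g.subtypePerm (p := fun p => p ∉ Y) (fun p => not_congr (hY g hg p)),
      ⟨g, hg, fun _ => rfl⟩, Subtype.ext hab⟩
  set L := M / 20 with hLdef
  have hL : Fintype.card Ω ≤ 2 ^ L := by
    have h1 := two_pow_bound L (by omega)
    have h2 : M + 1 ≤ 20 * (L + 1) := by omega
    have h3 : M * (M + 1) ≤ (20 * (L + 1)) * (20 * (L + 1)) := Nat.mul_le_mul (by omega) h2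
    nlinarith
  by_cases hP : Prim G
  swap
  · left
    have := H5 _ G L hTra hP (le_trans (by omega) hL)
    exact (transfer x Y hY (by omega) L _ hL this).mono (by omega)
  by_cases h3 : NoThree G
  swap
  · right
    refine ⟨Y, hYc, H7 Ω _ Y hY (by omega) fun c hc => ?_⟩
    exact H6 _ G hP h3 (mem_alternatingGroup.mpr hc)
  left
  set n' := Fintype.card {p : Ω // p ∉ Y} with hn'def
  have hmin : ∀ c ∈ G, c ≠ 1 → 2 * n' ≤ 3 * c.support.card ^ 2 := by
    intro c hc hc1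
    by_cases h2 : TwoTra G
    · have := H2 _ G h3 h2 c hc hc1
      omega
    · exact H3 _ G hP h2 (by omega) c hc hc1
  obtain ⟨D, hD, hDb⟩ := H1 _ G h3
  have hex : ∃ t : ℕ, n' ≤ 6 * (t + 2) ^ 2 := ⟨n', by nlinarith⟩
  set s := Nat.find hex with hs
  have hs1 : n' ≤ 6 * (s + 2) ^ 2 := Nat.find_spec hex
  have hs12 : 12 ≤ s := by
    by_contra hc
    have : (s + 2) ^ 2 ≤ 13 ^ 2 := Nat.pow_le_pow_left (by omega) 2
    omega
  have hs2 : 6 * (s + 1) ^ 2 < n' := by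
    have := Nat.find_min hex (m := s - 1) (by omega)
    have h5 : s - 1 + 2 = s + 1 := by omega
    rw [h5] at this
    omega
  haveI : Nonempty {p : Ω // p ∉ Y} := Fintype.card_pos_iff.mp (by omega)
  have hF := H4 _ G D s (3 * s + 13) hDb (fun c hc hc1 => by
    have := hmin c hc hc1
    by_contra hcon
    have h6 : c.support.card ^ 2 ≤ (2 * (s + 1)) ^ 2 := Nat.pow_le_pow_left (by omega) 2
    nlinarith) (by nlinarith)
  refine (transfer x Y hY (by omega) L _ hL hF).mono ?_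
  have h7 : 12 * (s + 1) ^ 2 ≤ M * (M + 1) := by omega
  by_contra hc
  have h8 : 9 * M ≤ 30 * (s + 1) + 110 := by omega
  obtain ⟨u, hu⟩ : ∃ u, 9 * M = u + 110 := ⟨9 * M - 110, by omega⟩
  have h9 : u * u ≤ (30 * (s + 1)) * (30 * (s + 1)) := Nat.mul_le_mul (by omega) (by omega)
  nlinarith

end Pool.Agent.MP_3e5dca_al.H53
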