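import Mathlib

/-! Combinatorial lemmas: separating families, covers, permutations moving sets. -/

namespace Pool.Agent.MP_3e5dca_al.H53

open Finset

/-- The family `Z` separates the points. -/
def Sep {Ω ι : Type} (Z : ι → Finset Ω) : Prop :=
  ∀ p q : Ω, (∀ i, p ∈ Z i ↔ q ∈ Z i) → p = q

theorem sep_binary {Ω : Type} [Fintype Ω] [DecidableEq Ω] (L : ℕ)
    (h : Fintype.card Ω ≤ 2 ^ L) : ∃ Z : Fin L → Finset Ω, Sep Z := by
  have h2 : Fintype.card Ω ≤ Fintype.card (Fin L → Bool) := by simpa using h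
  obtain ⟨c⟩ := Function.Embedding.nonempty_of_card_le h2
  refine ⟨fun i => univ.filter (fun p => c p i = true), fun p q hpq => ?_⟩
  apply c.injective
  funext i
  have := hpq i
  simp only [mem_filter, mem_univ, true_and] at this
  exact Bool.eq_iff_iff.mpr this

theorem sep_sym2 {Ω : Type} [Fintype Ω] [DecidableEq Ω] (M : ℕ)
    (h : 2 * Fintype.card Ω ≤ 2 + M * (M + 1)) :
    ∃ Z : Fin M → Finset Ω, Sep Z ∧ ∀ i, (Z i).card ≤ M := by
  classical
  have h2 : Fintype.card Ω ≤ Fintype.card (Option (Sym2 (Fin M))) := by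
    rw [Fintype.card_option, Sym2.card, Fintype.card_fin, Nat.choose_two_right]
    have : (M + 1) * (M + 1 - 1) = M * (M + 1) := by simp [mul_comm]
    rw [this]
    have h3 : 2 ∣ M * (M + 1) := (Nat.even_mul_succ_self M).two_dvd
    omega
  obtain ⟨c⟩ := Function.Embedding.nonempty_of_card_le h2
  refine ⟨fun i => univ.filter (fun p => ∃ s, c p = some s ∧ i ∈ s), fun p q hpq => ?_, fun i => ?_⟩
  · apply c.injective
    simp only [mem_filter, mem_univ, true_and] at hpq
    rcases hp : c p with _ | s <;> rcases hq : c q with _ | t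
    · rfl
    · exfalso
      have := (hpq t.out.1).mpr ⟨t, hq, Sym2.out_fst_mem t⟩
      simp [hp] at this
    · exfalso
      have := (hpq s.out.1).mp ⟨s, hp, Sym2.out_fst_mem s⟩
      simp [hq] at this
    · congr 1
      apply Sym2.ext
      intro i
      have := hpq i
      simpa [hp, hq] using this
  · have : (univ.filter (fun p => ∃ s, c p = some s ∧ i ∈ s)).card ≤
        ((univ : Finset (Fin M)).image (fun l => some s(i, l))).card := by
      apply card_le_card_of_injOn c
      · intro p hp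
        simp only [coe_filter, mem_univ, true_and, Set.mem_ofPred_eq] at hp
        obtain ⟨s, hs, hi⟩ := hp
        obtain ⟨l, rfl⟩ := Sym2.mem_iff_exists.mp hi
        simp only [coe_image, coe_univ, Set.image_univ, Set.mem_range]
        exact ⟨l, hs.symm⟩
      · exact c.injective.injOn
    exact this.trans (card_image_le.trans (by simp))

theorem sep_add_point {Ω ι : Type} [Fintype Ω] [DecidableEq Ω] [DecidableEq ι]
    (Z : ι → Finset Ω) (hZ : Sep Z) (i : ι) (hi : 2 * (Z i).card < Fintype.card Ω) :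
    ∃ p, p ∉ Z i ∧ Sep (Function.update Z i (insert p (Z i))) := by
  classical
  by_contra hcon
  push Not at hcon
  have key : ∀ p, p ∉ Z i → ∃ q ∈ Z i, ∀ l, l ≠ i → (p ∈ Z l ↔ q ∈ Z l) := by
    intro p hp
    have := hcon p hp
    unfold Sep at this
    push Not at this
    obtain ⟨a, b, hab, hne⟩ := this
    have hoff : ∀ l, l ≠ i → (a ∈ Z l ↔ b ∈ Z l) := by
      intro l hl
      have := hab l
      rwa [Function.update_of_ne hl] at this
    have hon := hab i
    rw [Function.update_self, mem_insert, mem_insert] at hon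
    have hnot : ¬ (a ∈ Z i ↔ b ∈ Z i) := by
      intro h
      apply hne
      apply hZ
      intro l
      by_cases hl : l = i
      · rw [hl]; exact h
      · exact hoff l hl
    by_cases ha : a ∈ Z i
    · have hb : b ∉ Z i := fun hb => hnot ⟨fun _ => hb, fun _ => ha⟩
      have : b = p := by
        rcases hon.mp (Or.inr ha) with h | h
        · exact h
        · exact absurd h hb
      exact ⟨a, ha, fun l hl => by rw [← this]; exact (hoff l hl).symm⟩
    · have hb : b ∈ Z i := by
        by_contra hb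
        exact hnot ⟨fun h => absurd h ha, fun h => absurd h hb⟩
      have : a = p := by
        rcases hon.mpr (Or.inr hb) with h | h
        · exact h
        · exact absurd h ha
      exact ⟨b, hb, fun l hl => by rw [← this]; exact hoff l hl⟩
  choose! t ht using key
  have : ((Z i)ᶜ).card ≤ (Z i).card := by
    apply card_le_card_of_injOn t
    · intro p hp
      exact (ht p (by simpa using hp)).1
    · intro p hp q hq hpq
      have hp' : p ∉ Z i := by simpa using hp
      have hq' : q ∉ Z i := by simpa using hq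
      apply hZ
      intro l
      by_cases hl : l = i
      · rw [hl]; simp [hp', hq']
      · rw [(ht p hp').2 l hl, (ht q hq').2 l hl, hpq]
  rw [card_compl] at this
  omega

theorem sep_enlarge {Ω ι : Type} [Fintype Ω] [DecidableEq Ω] [Fintype ι] [DecidableEq ι]
    (k : ℕ) (hk : 2 * k ≤ Fintype.card Ω) (d : ℕ) :
    ∀ (Z : ι → Finset Ω), Sep Z → (∀ i, (Z i).card ≤ k) → ∑ i, (k - (Z i).card) = d →
      ∃ W : ι → Finset Ω, Sep W ∧ ∀ i, (W i).card = k := by
  induction d with
  | zero =>
    intro Z hZ h1 h2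
    refine ⟨Z, hZ, fun i => ?_⟩
    have := (sum_eq_zero_iff.mp h2) i (mem_univ i)
    have := h1 i
    omega
  | succ d ih =>
    intro Z hZ h1 h2
    have : ∃ i, (Z i).card < k := by
      by_contra hc
      push Not at hc
      have : ∑ i, (k - (Z i).card) = 0 := sum_eq_zero fun i _ => by have := hc i; omega
      omega
    obtain ⟨i, hi⟩ := this
    obtain ⟨p, hp, hS⟩ := sep_add_point Z hZ i (by omega)
    apply ih _ hS
    · intro l
      by_cases hl : l = i
      · rw [hl, Function.update_self, card_insert_of_notMem hp]; omega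
      · rw [Function.update_of_ne hl]; exact h1 l
    · rw [← add_sum_erase _ _ (mem_univ i)] at h2 ⊢
      rw [Function.update_self, card_insert_of_notMem hp]
      have : ∑ l ∈ univ.erase i, (k - (Function.update Z i (insert p (Z i)) l).card) =
          ∑ l ∈ univ.erase i, (k - (Z l).card) :=
        sum_congr rfl fun l hl => by rw [Function.update_of_ne (ne_of_mem_erase hl)]
      rw [this]
      omega

/-- `M` separating sets of size exactly `k`, for `M ≤ k ≤ n/2`. -/
theorem sep_exact {Ω : Type} [Fintype Ω] [DecidableEq Ω] (M k : ℕ)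
    (h : 2 * Fintype.card Ω ≤ 2 + M * (M + 1)) (hMk : M ≤ k) (hk : 2 * k ≤ Fintype.card Ω) :
    ∃ W : Fin M → Finset Ω, Sep W ∧ ∀ i, (W i).card = k := by
  obtain ⟨Z, hZ, hc⟩ := sep_sym2 M h
  exact sep_enlarge k hk _ Z hZ (fun i => (hc i).trans hMk) rfl

/-- A set of at most `r * s` points is covered by `r` sets of size at most `s`. -/
theorem cover_le {Ω : Type} [DecidableEq Ω] (s r : ℕ) :
    ∀ D : Finset Ω, D.card ≤ r * s →
      ∃ P : Fin r → Finset Ω, (∀ i, (P i).card ≤ s) ∧ ∀ p ∈ D, ∃ i, p ∈ P i := by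
  induction r with
  | zero =>
    intro D hD
    have : D = ∅ := card_eq_zero.mp (by omega)
    exact ⟨fun i => i.elim0, fun i => i.elim0, by simp [this]⟩
  | succ r ih =>
    intro D hD
    obtain ⟨A, hA, hAc⟩ := exists_subset_card_eq (s := D) (n := min s D.card) (min_le_right _ _)
    obtain ⟨P, hP, hcov⟩ := ih (D \ A) (by
      rw [card_sdiff_of_subset hA, hAc]
      have : (r + 1) * s = r * s + s := by ring
      omega)
    refine ⟨Fin.cons A P, fun i => ?_, fun p hp => ?_⟩
    · refine Fin.cases ?_ (fun i => ?_) i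
      · simp [hAc]
      · simpa using hP i
    · by_cases hpA : p ∈ A
      · exact ⟨0, by simpa using hpA⟩
      · obtain ⟨i, hi⟩ := hcov p (mem_sdiff.mpr ⟨hp, hpA⟩)
        exact ⟨i.succ, by simpa using hi⟩

theorem cover_exact {Ω : Type} [Fintype Ω] [DecidableEq Ω] (s r : ℕ) (hs : s ≤ Fintype.card Ω)
    (D : Finset Ω) (hD : D.card ≤ r * s) :
    ∃ P : Fin r → Finset Ω, (∀ i, (P i).card = s) ∧ ∀ p ∈ D, ∃ i, p ∈ P i := by
  obtain ⟨P, hP, hcov⟩ := cover_le s r D hD
  have : ∀ i, ∃ Q, P i ⊆ Q ∧ Q.card = s := fun i => exists_superset_card_eq (hP i) hs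
  choose Q hQ using this
  refine ⟨Q, fun i => (hQ i).2, fun p hp => ?_⟩
  obtain ⟨i, hi⟩ := hcov p hp
  exact ⟨i, (hQ i).1 hi⟩

/-- A permutation carrying `Y` onto `Y'` and `B` into `S`. -/
theorem perm_map {Ω : Type} [Fintype Ω] [DecidableEq Ω] (B Y S Y' : Finset Ω)
    (hB : B ⊆ Y) (hS : S ⊆ Y') (hc : B.card ≤ S.card) (hY : Y.card = Y'.card) :
    ∃ σ : Equiv.Perm Ω, (∀ p, σ p ∈ Y' ↔ p ∈ Y) ∧ ∀ p ∈ B, σ p ∈ S := by
  classical
  have e : Y ≃ Y' := Fintype.equivOfCardEq (by simpa using hY)
  obtain ⟨ι⟩ : Nonempty (B ↪ S) := Function.Embedding.nonempty_of_card_le (by simpa using hc)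
  obtain ⟨h, hh⟩ := Equiv.Perm.exists_extending_pair (α := B) (β := Y')
    (f := fun b => e ⟨b.1, hB b.2⟩) (g := fun b => ⟨(ι b).1, hS (ι b).2⟩)
    (fun a b hab => by
      have := e.injective hab
      exact Subtype.ext (Subtype.mk.inj this))
    (fun a b hab => by
      apply ι.injective
      exact Subtype.ext (Subtype.mk.inj hab))
  obtain ⟨σ, hσ⟩ := Equiv.Perm.exists_extending_pair (α := Y) (β := Ω)
    (f := fun y => y.1) (g := fun y => (h (e y)).1) Subtype.val_injective
    (fun a b hab => e.injective (h.injective (Subtype.ext hab)))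
  have h1 : ∀ p ∈ Y, σ p ∈ Y' := fun p hp => by
    have := hσ ⟨p, hp⟩
    simp only at this
    rw [this]; exact (h (e ⟨p, hp⟩)).2
  refine ⟨σ, fun p => ⟨fun hp => ?_, h1 p⟩, fun p hp => ?_⟩
  · obtain ⟨y, hy⟩ := (e.trans h).surjective ⟨σ p, hp⟩
    have h2 := hσ y
    simp only [Equiv.trans_apply] at hy
    rw [hy] at h2
    have : y.1 = p := σ.injective h2
    rw [← this]; exact y.2
  · have h2 := hσ ⟨p, hB hp⟩
    have h3 := hh ⟨p, hp⟩
    simp only at h2 h3
    rw [h2, h3]
    exact (ι ⟨p, hp⟩).2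

end Pool.Agent.MP_3e5dca_al.H53
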