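import Pool.Agent.MP_3e5dca_al.H53.Comb

/-! Near-regular graphs and the design used for the upper bound. -/

namespace Pool.Agent.MP_3e5dca_al.H53

open Finset

/-- Degree of `i` in a family of sets. -/
def dg {ι : Type} [DecidableEq ι] (E : Finset (Finset ι)) (i : ι) : ℕ :=
  (E.filter (fun z => i ∈ z)).card

theorem sum_dg {ι : Type} [Fintype ι] [DecidableEq ι] (E : Finset (Finset ι))
    (hE : ∀ z ∈ E, z.card = 2) : ∑ i, dg E i = 2 * E.card := by
  unfold dg
  simp only [card_filter]
  rw [sum_comm]
  have : ∀ z ∈ E, ∑ i : ι, (if i ∈ z then 1 else 0) = 2 := by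
    intro z hz
    rw [← hE z hz, ← card_filter]
    congr 1
    ext i; simp
  rw [sum_congr rfl this]
  simp [mul_comm]

theorem shift_exists {ι : Type} [DecidableEq ι] (E : Finset (Finset ι)) (a b : ι)
    (h : dg E b < dg E a) : ∃ z ∈ E, a ∈ z ∧ b ∉ z ∧ insert b (z.erase a) ∉ E := by
  by_contra hc
  push Not at hc
  have hab : a ≠ b := by rintro rfl; omega
  have h1 : (E.filter (fun z => a ∈ z ∧ b ∉ z)).card ≤ (E.filter (fun z => b ∈ z ∧ a ∉ z)).card := by
    apply card_le_card_of_injOn (fun z => insert b (z.erase a))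
    · intro z hz
      simp only [coe_filter, Set.mem_ofPred_eq] at hz ⊢
      refine ⟨hc z hz.1 hz.2.1 hz.2.2, mem_insert_self _ _, ?_⟩
      simp [hab]
    · intro z hz w hw hzw
      simp only [coe_filter, Set.mem_ofPred_eq] at hz hw
      ext x
      have := congrArg (fun s => x ∈ s) hzw
      simp only [mem_insert, mem_erase, eq_iff_iff] at this
      by_cases hxa : x = a
      · rw [hxa]; simp [hz.2.1, hw.2.1]
      · by_cases hxb : x = b
        · rw [hxb]; simp [hz.2.2, hw.2.2]
        · simpa [hxa, hxb] using this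
  have h2 := card_filter_add_card_filter_not (s := E.filter (fun z => a ∈ z)) (fun z => b ∈ z)
  have h3 := card_filter_add_card_filter_not (s := E.filter (fun z => b ∈ z)) (fun z => a ∈ z)
  rw [filter_filter, filter_filter] at h2 h3
  have h4 : E.filter (fun z => a ∈ z ∧ b ∈ z) = E.filter (fun z => b ∈ z ∧ a ∈ z) :=
    filter_congr fun z _ => and_comm
  rw [h4] at h2
  unfold dg at h
  omega

theorem dg_swap {ι : Type} [DecidableEq ι] (E : Finset (Finset ι)) (z w : Finset ι)
    (hz : z ∈ E) (hw : w ∉ E) (i : ι) :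
    dg (insert w (E.erase z)) i + (if i ∈ z then 1 else 0) = dg E i + (if i ∈ w then 1 else 0) := by
  unfold dg
  simp only [card_filter]
  rw [sum_insert (fun h => hw (mem_of_mem_erase h)), ← add_sum_erase E _ hz]
  ring

theorem near_regular {ι : Type} [Fintype ι] [DecidableEq ι] (e : ℕ)
    (he : e ≤ (Fintype.card ι).choose 2) :
    ∃ E : Finset (Finset ι), (∀ z ∈ E, z.card = 2) ∧ E.card = e ∧ ∀ a b, dg E a ≤ dg E b + 1 := by
  classical
  have hne : ((powersetCard 2 (univ : Finset ι)).powersetCard e).Nonempty := by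
    rw [powersetCard_nonempty, card_powersetCard, card_univ]; exact he
  obtain ⟨E, hE, hmin⟩ := exists_min_image _ (fun E => ∑ i, dg E i ^ 2) hne
  rw [mem_powersetCard] at hE
  have hE2 : ∀ z ∈ E, z.card = 2 := fun z hz => (mem_powersetCard.mp (hE.1 hz)).2
  refine ⟨E, hE2, hE.2, fun a b => ?_⟩
  by_contra hc
  obtain ⟨z, hz, ha, hb, hw⟩ := shift_exists E a b (by omega)
  have hab : a ≠ b := by rintro rfl; omega
  set w := insert b (z.erase a) with hwdef
  have hw2 : w.card = 2 := by
    rw [hwdef, card_insert_of_notMem (fun h => hb (mem_of_mem_erase h)), card_erase_of_mem ha,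
      hE2 z hz]
  have hmem : insert w (E.erase z) ∈ (powersetCard 2 (univ : Finset ι)).powersetCard e := by
    rw [mem_powersetCard]
    constructor
    · intro y hy
      rcases mem_insert.mp hy with rfl | hy
      · exact mem_powersetCard.mpr ⟨subset_univ _, hw2⟩
      · exact hE.1 (mem_of_mem_erase hy)
    · rw [card_insert_of_notMem (fun h => hw (mem_of_mem_erase h)), card_erase_of_mem hz, hE.2]
      have : 0 < e := by rw [← hE.2]; exact card_pos.mpr ⟨z, hz⟩
      omega
  have hle := hmin _ hmem
  have hda := dg_swap E z w hz hw a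
  have hdb := dg_swap E z w hz hw b
  have haw : a ∉ w := by simp [hwdef, hab]
  have hbw : b ∈ w := by simp [hwdef]
  simp only [ha, haw, hb, hbw, if_true, if_false, add_zero] at hda hdb
  have hrest : ∀ i ∈ (univ.erase a).erase b, dg (insert w (E.erase z)) i ^ 2 = dg E i ^ 2 := by
    intro i hi
    have h1 : i ≠ b := ne_of_mem_erase hi
    have h2 : i ≠ a := ne_of_mem_erase (mem_of_mem_erase hi)
    have := dg_swap E z w hz hw i
    have h3 : i ∈ w ↔ i ∈ z := by simp [hwdef, h1, h2]
    simp only [h3] at this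
    rw [Nat.add_right_cancel this]
  have hbm : b ∈ (univ : Finset ι).erase a := mem_erase.mpr ⟨hab.symm, mem_univ _⟩
  rw [← add_sum_erase _ _ (mem_univ a), ← add_sum_erase _ _ hbm,
    ← add_sum_erase _ (fun i => dg (insert w (E.erase z)) i ^ 2) (mem_univ a),
    ← add_sum_erase _ (fun i => dg (insert w (E.erase z)) i ^ 2) hbm, sum_congr rfl hrest] at hle
  rw [← hda, hdb] at hle
  rw [← hda] at hc
  nlinarith

theorem dg_le {ι : Type} [Fintype ι] [DecidableEq ι] (E : Finset (Finset ι))
    (hE : ∀ z ∈ E, z.card = 2) (i : ι) : dg E i ≤ Fintype.card ι - 1 := by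
  have : dg E i ≤ ((univ.erase i).image (fun l => ({i, l} : Finset ι))).card := by
    apply card_le_card
    intro z hz
    rw [mem_filter] at hz
    obtain ⟨x, y, hxy, rfl⟩ := card_eq_two.mp (hE z hz.1)
    rw [mem_image]
    have h := hz.2
    rw [mem_insert, mem_singleton] at h
    rcases h with rfl | rfl
    · exact ⟨y, by simp [hxy.symm], rfl⟩
    · exact ⟨x, by simp [hxy], pair_comm _ _⟩
  exact this.trans (card_image_le.trans (by simp))

/-- The design: `m` sets of size `k` covering all but `u` points; the points of `S i` are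
determined by the sets containing them. -/
theorem design {Ω : Type} [Fintype Ω] [DecidableEq Ω] (m k u e : ℕ)
    (h1 : m * k + u = e + Fintype.card Ω) (h2 : e ≤ m.choose 2)
    (h3 : m ≤ k + 1 ∨ 2 * e ≤ m * k) :
    ∃ (Y S : Fin m → Finset Ω) (U : Finset Ω), U.card = u ∧ (∀ i, (Y i).card = k) ∧
      (∀ i, S i ⊆ Y i) ∧ (∀ p, p ∉ U → ∃ i, p ∈ Y i) ∧
      (∀ i, ∀ p ∈ S i, ∀ q, (∀ l, p ∈ Y l ↔ q ∈ Y l) → q = p) ∧
      ∑ i, (S i).card = 2 * e ∧ ∀ i l, (S i).card ≤ (S l).card + 1 := by
  classical
  obtain ⟨E, hE2, hEc, hreg⟩ := near_regular (ι := Fin m) e (by simpa using h2)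
  have hsum := sum_dg E hE2
  rw [hEc] at hsum
  have hdk : ∀ i, dg E i ≤ k := by
    intro i
    rcases h3 with h3 | h3
    · have := dg_le E hE2 i
      rw [Fintype.card_fin] at this
      omega
    · by_contra hc
      have : ∑ l : Fin m, k < ∑ l, dg E l := by
        apply sum_lt_sum
        · intro l _
          have := hreg i l
          omega
        · exact ⟨i, mem_univ _, by omega⟩
      simp only [sum_const, card_univ, Fintype.card_fin, smul_eq_mul] at this
      omega
  have hpriv : ∑ i : Fin m, (k - dg E i) + 2 * e = m * k := by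
    rw [← hsum, ← sum_add_distrib, sum_congr rfl (fun i _ => Nat.sub_add_cancel (hdk i))]
    simp
  let T := (E ⊕ (Σ i : Fin m, Fin (k - dg E i))) ⊕ Fin u
  have hT : Fintype.card Ω = Fintype.card T := by
    simp only [T, Fintype.card_sum, Fintype.card_sigma, Fintype.card_fin, Fintype.card_coe, hEc]
    omega
  let φ : Ω ≃ T := Fintype.equivOfCardEq hT
  let code : T → Finset (Fin m) :=
    Sum.elim (Sum.elim (fun z => z.1) (fun x => {x.1})) (fun _ => ∅)
  let isE : T → Prop := Sum.elim (Sum.elim (fun _ => True) (fun _ => False)) (fun _ => False)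
  have tr : ∀ (P : T → Prop) [DecidablePred P],
      (univ.filter (fun p => P (φ p))).card = ∑ t : T, if P t then 1 else 0 := by
    intro P _
    rw [card_filter]
    exact Equiv.sum_comp φ (fun t => if P t then 1 else 0)
  have hdg : ∀ i, (∑ z : E, if i ∈ z.1 then 1 else 0) = dg E i := by
    intro i
    unfold dg
    rw [card_filter]
    exact sum_coe_sort E (fun z => if i ∈ z then 1 else 0)
  have hS : ∀ i, (univ.filter (fun p => i ∈ code (φ p) ∧ isE (φ p))).card = dg E i := by
    intro i
    rw [tr (fun t => i ∈ code t ∧ isE t), Fintype.sum_sum_type, Fintype.sum_sum_type, ← hdg]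
    simp [code, isE]
  refine ⟨fun i => univ.filter (fun p => i ∈ code (φ p)),
    fun i => univ.filter (fun p => i ∈ code (φ p) ∧ isE (φ p)),
    univ.filter (fun p => ∃ x, φ p = Sum.inr x), ?_, fun i => ?_, fun i => ?_, ?_, ?_, ?_, ?_⟩
  · rw [tr (fun t => ∃ x, t = Sum.inr x), Fintype.sum_sum_type]
    simp
  · rw [tr (fun t => i ∈ code t), Fintype.sum_sum_type, Fintype.sum_sum_type,
      Fintype.sum_sigma]
    simp only [code, Sum.elim_inl, Sum.elim_inr, mem_singleton, notMem_empty, if_false,
      sum_const, card_univ, Fintype.card_fin, smul_eq_mul, mul_ite, mul_one, mul_zero,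
      sum_ite_eq, mem_univ, if_true, add_zero]
    have := hdk i
    calc _ = dg E i + (k - dg E i) := by congr 1; convert hdg i
      _ = k := by omega
  · intro p hp
    simp only [mem_filter, mem_univ, true_and] at hp ⊢
    exact hp.1
  · intro p hp
    simp only [mem_filter, mem_univ, true_and, not_exists] at hp ⊢
    rcases h : φ p with (z | x) | x
    · have : z.1.Nonempty := card_pos.mp (by rw [hE2 z.1 z.2]; norm_num)
      obtain ⟨i, hi⟩ := this
      exact ⟨i, by simpa [code] using hi⟩
    · exact ⟨x.1, by simp [code]⟩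
    · exact absurd h (hp x)
  · intro i p hp q hq
    simp only [mem_filter, mem_univ, true_and] at hp hq
    obtain ⟨z, hz⟩ : ∃ z, φ p = Sum.inl (Sum.inl z) := by
      rcases h : φ p with (w | x) | x
      · exact ⟨w, rfl⟩
      · have := hp.2
        rw [h] at this
        simp [isE] at this
      · have := hp.2
        rw [h] at this
        simp [isE] at this
    have hc : code (φ q) = z.1 := by
      ext l
      rw [← hq l, hz]
      simp [code]
    have hz2 := hE2 z.1 z.2
    apply φ.injective
    rw [hz]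
    rcases h : φ q with (w | x) | x
    · rw [h] at hc
      have : w = z := Subtype.ext (by simpa [code] using hc)
      rw [this]
    · rw [h] at hc
      rw [← hc] at hz2
      simp [code] at hz2
    · rw [h] at hc
      rw [← hc] at hz2
      simp [code] at hz2
  · rw [sum_congr rfl (fun i _ => hS i), hsum]
  · intro i l
    simp only [hS]
    exact hreg i l

end Pool.Agent.MP_3e5dca_al.H53
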