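import Pool.Agent.MP_3e5dca_al.H53.Spec

/-! Few conjugates from a large minimal degree, and Jordan's theorem on 3-cycles. -/

namespace Pool.Agent.MP_3e5dca_al.H53

open Finset Equiv Equiv.Perm MulAction
open scoped Pointwise

theorem fam_of_min : S_fam := by
  intro Ω _ _ hne G D s r hD hm hc
  obtain ⟨P, hP, hcov⟩ := cover_le s r D hc
  obtain ⟨p0⟩ := hne
  choose σ h1 h2 using fun i => Finset.exists_cycleOn (insert p0 (P i))
  refine ⟨insert 1 (univ.image σ), p0, ?_, fun g hg h0 => ?_⟩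
  · refine (card_insert_le _ _).trans (Nat.succ_le_succ (card_image_le.trans ?_))
    rw [card_univ, Fintype.card_fin]
  · have hG : g ∈ G := by simpa using hg 1 (mem_insert_self _ _)
    refine hD g hG fun p hp => ?_
    obtain ⟨i, hi⟩ := hcov p hp
    have h3 : g⁻¹ * (σ i)⁻¹ * g⁻¹⁻¹ * σ i ∈ G := by
      have := G.mul_mem (G.inv_mem hG)
        (hg (σ i) (mem_insert_of_mem (mem_image_of_mem σ (mem_univ i))))
      simpa only [mul_assoc, inv_inv] using this
    have h4 : (σ i).support.card ≤ s + 1 :=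
      (card_le_card (h2 i)).trans ((card_insert_le _ _).trans (Nat.succ_le_succ (hP i)))
    have h5 : (g⁻¹ * (σ i)⁻¹ * g⁻¹⁻¹ * σ i).support.card ≤ 2 * (s + 1) := by
      refine (card_le_card (support_mul_le _ _)).trans ((card_union_le _ _).trans ?_)
      rw [card_support_conj, support_inv]
      omega
    have h6 : g⁻¹ * (σ i)⁻¹ * g⁻¹⁻¹ * σ i = 1 := by
      by_contra h
      exact absurd (hm _ h3 h) (not_lt.2 h5)
    have h7 : Commute g (σ i) := by
      have e : σ i * g * (g⁻¹ * (σ i)⁻¹ * g⁻¹⁻¹ * σ i) = g * σ i := by group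
      rw [h6, mul_one] at e
      exact e.symm
    obtain ⟨n, -, hn⟩ := (h1 i).exists_pow_eq (a := p0) (b := p) (mem_insert_self _ _)
      (mem_insert_of_mem hi)
    rw [← hn, ← Perm.mul_apply, (h7.pow_right n).eq, Perm.mul_apply, h0]

theorem fj_prim {Ω : Type} [Fintype Ω] [DecidableEq Ω] {G : Subgroup (Perm Ω)} (h : Prim G) :
    IsPreprimitive G Ω where
  exists_smul_eq a b := by
    obtain ⟨g, hg, e⟩ := h.1 a b
    exact ⟨⟨g, hg⟩, e⟩
  isTrivialBlock_of_isBlock := by
    intro B hB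
    have he : Equivalence fun a b : Ω => a = b ∨ ∃ g : G, a ∈ g • B ∧ b ∈ g • B := by
      refine ⟨fun _ => Or.inl rfl, ?_, ?_⟩
      · rintro a b (e | ⟨g, h1, h2⟩)
        · exact Or.inl e.symm
        · exact Or.inr ⟨g, h2, h1⟩
      · rintro a b c (rfl | ⟨g, h1, h2⟩) h3
        · exact h3
        · rcases h3 with rfl | ⟨g', h3, h4⟩
          · exact Or.inr ⟨g, h1, h2⟩
          · exact Or.inr ⟨g, h1, hB.smul_eq_smul_of_nonempty ⟨b, h2, h3⟩ ▸ h4⟩
    have hi : InvRel G fun a b : Ω => a = b ∨ ∃ g : G, a ∈ g • B ∧ b ∈ g • B := by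
      rintro x hx a b (rfl | ⟨g, h1, h2⟩)
      · exact Or.inl rfl
      · refine Or.inr ⟨(⟨x, hx⟩ : G) * g, ?_, ?_⟩
        · rw [mul_smul]
          exact Set.smul_mem_smul_set (a := (⟨x, hx⟩ : G)) h1
        · rw [mul_smul]
          exact Set.smul_mem_smul_set (a := (⟨x, hx⟩ : G)) h2
    rcases h.2 _ he hi with h1 | h1
    · exact Or.inl fun a ha b hb => h1 a b (Or.inr ⟨1, by rwa [one_smul], by rwa [one_smul]⟩)
    · rcases B.eq_empty_or_nonempty with rfl | ⟨a, ha⟩
      · exact Or.inl Set.subsingleton_empty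
      · refine Or.inr (Set.eq_univ_of_forall fun b => ?_)
        rcases h1 a b with rfl | ⟨g, h2, h3⟩
        · exact ha
        · have e := hB.smul_eq_smul_of_nonempty (g₁ := g) (g₂ := 1) ⟨a, h2, by rwa [one_smul]⟩
          rwa [e, one_smul] at h3

theorem jordan : S_jordan := by
  intro Ω _ _ G hG h3
  unfold NoThree at h3
  push Not at h3
  obtain ⟨g, hg, h⟩ := h3
  exact alternatingGroup_le_of_isPreprimitive_of_isThreeCycle_mem (fj_prim hG) h hg

end Pool.Agent.MP_3e5dca_al.H53
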