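import Pool.Agent.MP_3e5dca_al.H53.Spec

/-! Imprimitive groups: few conjugates meet in a group with a trivial point stabiliser. -/

namespace Pool.Agent.MP_3e5dca_al.H53

open Finset Equiv Equiv.Perm MulAction

section Grid

variable {R C : Type} [Fintype R] [DecidableEq R] [Fintype C] [DecidableEq C]

/-- `g` preserves the partition with labels `f c r`. -/
def im_Pres (g : Perm (R × C)) (f : C → Perm R) : Prop :=
  ∀ p q : R × C, f p.2 p.1 = f q.2 q.1 ↔ f (g p).2 (g p).1 = f (g q).2 (g q).1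

theorem im_cyc (W : Finset R) (h : W.card ≠ 1) : ∃ ρ : Perm R, ∀ r, ρ r = r ↔ r ∉ W := by
  obtain ⟨ρ, h1, h2⟩ := W.exists_cycleOn
  refine ⟨ρ, fun r => ⟨fun e hr => ?_, fun hr => ?_⟩⟩
  · rcases Finset.eq_singleton_or_nontrivial hr with rfl | hn
    · exact h (card_singleton r)
    · exact h1.apply_ne hn hr e
  · by_contra e
    exact hr (h2 (mem_support.2 e))

theorem im_set (h3 : 3 ≤ Fintype.card R) (Z : Finset R) :
    ∃ ρ : Perm R, ∀ r r', (ρ r = r ↔ ρ r' = r') → (r ∈ Z ↔ r' ∈ Z) := by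
  by_cases h : Z.card = 1
  · obtain ⟨ρ, hρ⟩ := im_cyc Zᶜ (by rw [card_compl]; omega)
    refine ⟨ρ, fun r r' e => ?_⟩
    rw [hρ, hρ] at e
    simpa using e
  · obtain ⟨ρ, hρ⟩ := im_cyc Z h
    refine ⟨ρ, fun r r' e => ?_⟩
    rw [hρ, hρ] at e
    exact not_iff_not.1 e

theorem im_full (h3 : 3 ≤ Fintype.card R) : ∃ ρ : Perm R, ∀ r, ρ r ≠ r ∧ ρ (ρ r) ≠ r := by
  obtain ⟨ρ, h1, -⟩ := (univ : Finset R).exists_cycleOn
  refine ⟨ρ, fun r => ⟨fun e => ?_, fun e => ?_⟩⟩
  · have := (h1.pow_apply_eq (mem_univ r) (n := 1)).1 (by simpa using e)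
    have := Nat.le_of_dvd one_pos this
    rw [card_univ] at this; omega
  · have := (h1.pow_apply_eq (mem_univ r) (n := 2)).1 (by simpa [pow_two] using e)
    have := Nat.le_of_dvd two_pos this
    rw [card_univ] at this; omega

omit [Fintype R] [DecidableEq R] [Fintype C] in
theorem im_row [Nontrivial C] (g : Perm (R × C)) (c0 : C) (ρ : Perm R) (h1 : im_Pres g 1)
    (h2 : im_Pres g fun c => if c = c0 then ρ else 1) (p : R × C) :
    ρ p.1 = p.1 ↔ ρ (g p).1 = (g p).1 := by
  obtain ⟨c1, hc⟩ := exists_ne c0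
  have h1' : ∀ p q : R × C, p.1 = q.1 ↔ (g p).1 = (g q).1 := h1
  constructor
  · intro e
    have a0 : (g.symm ((g p).1, c0)).1 = p.1 := by rw [h1']; simp
    have a1 : (g.symm ((g p).1, c1)).1 = p.1 := by rw [h1']; simp
    have := (h2 (g.symm ((g p).1, c0)) (g.symm ((g p).1, c1))).1 (by
      simp only [a0, a1]
      split_ifs <;> simp [e])
    simpa [hc] using this
  · intro e
    have a0 : (g (p.1, c0)).1 = (g p).1 := by rw [← h1']
    have a1 : (g (p.1, c1)).1 = (g p).1 := by rw [← h1']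
    have := (h2 (p.1, c0) (p.1, c1)).2 (by
      simp only [a0, a1]
      split_ifs <;> simp [e])
    simpa [hc] using this

omit [Fintype R] [DecidableEq R] [Fintype C] in
theorem im_col (g : Perm (R × C)) (A : Finset C) (ρ : Perm R) (hρ : ∀ r, ρ r ≠ r ∧ ρ (ρ r) ≠ r)
    (h1 : ∀ p, (g p).1 = p.1) (h2 : im_Pres g fun c => if c ∈ A then ρ else 1) (p : R × C) :
    (g p).2 ∈ A ↔ p.2 ∈ A := by
  obtain ⟨a, b⟩ := hρ p.1
  constructor
  · intro e
    by_contra e'
    have a0 : (g.symm (ρ p.1, p.2)).1 = ρ p.1 := by rw [← h1]; simp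
    have := (h2 p (g.symm (ρ p.1, p.2))).2 (by simp [e, e', h1])
    simp only [a0, if_neg e'] at this
    split_ifs at this
    · exact b this.symm
    · exact a this.symm
  · intro e
    by_contra e'
    have := (h2 p (ρ p.1, (g p).2)).1 (by simp [e, e'])
    simp only [h1, if_neg e'] at this
    split_ifs at this
    · exact b this.symm
    · exact a this.symm

theorem im_core [Nontrivial R] [Nontrivial C] (L : ℕ) (hR : Fintype.card R ≤ 2 ^ L)
    (hC : Fintype.card C ≤ 2 ^ L) : ∃ F : Option (Fin L ⊕ Fin L) → C → Perm R,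
      ∀ (p0 : R × C) (g : Perm (R × C)), (∀ i, im_Pres g (F i)) → g p0 = p0 → ∀ p, g p = p := by
  obtain ⟨Z, hZ⟩ := sep_binary L hR
  obtain ⟨A, hA⟩ := sep_binary L hC
  by_cases h3 : 3 ≤ Fintype.card R
  · obtain ⟨c0, -⟩ := exists_pair_ne C
    choose τ hτ using im_set h3
    obtain ⟨ρ, hρ⟩ := im_full h3
    refine ⟨fun i => i.elim 1 (Sum.elim (fun i c => if c = c0 then τ (Z i) else 1)
      fun i c => if c ∈ A i then ρ else 1), fun p0 g hg _ p => ?_⟩
    have h1 : ∀ p, (g p).1 = p.1 := fun p => hZ _ _ fun i =>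
      (hτ _ _ _ (im_row g c0 _ (hg none) (hg (some (Sum.inl i))) p)).symm
    exact Prod.ext (h1 p) (hA _ _ fun i => im_col g _ ρ hρ h1 (hg (some (Sum.inr i))) p)
  · have h2 : Fintype.card R = 2 := by
      have := Fintype.one_lt_card (α := R); omega
    have two : ∀ x y z : R, (x = z ↔ y = z) → y = x := by
      intro x y z h
      by_contra e
      by_cases hx : x = z
      · exact e ((h.1 hx).trans hx.symm)
      · have hy : y ≠ z := fun e' => hx (h.2 e')
        have := card_le_univ ({x, y, z} : Finset R)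
        rw [card_eq_three.2 ⟨x, y, z, fun e' => e e'.symm, hx, hy, rfl⟩] at this
        omega
    obtain ⟨ρ, hρ⟩ := im_cyc (univ : Finset R) (by rw [card_univ]; omega)
    refine ⟨fun i => i.elim 1 (Sum.elim (fun _ => 1) fun i c => if c ∈ A i then ρ else 1),
      fun p0 g hg h0 p => ?_⟩
    have h1 : (g p).1 = p.1 := by
      have := hg none p p0
      rw [h0] at this
      exact two _ _ _ this
    refine Prod.ext h1 (hA _ _ fun i => ?_)
    have h4 := hg (some (Sum.inr i)) p p0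
    rw [h0] at h4
    have h5 := two _ _ _ h4
    have h6 : ρ p.1 ≠ p.1 := fun e => (hρ _).1 e (mem_univ _)
    simp only [Option.elim, Sum.elim_inr, h1] at h5
    by_cases a : (g p).2 ∈ A i <;> by_cases b : p.2 ∈ A i <;> simp [a, b, h6, h6.symm] at h5 ⊢

end Grid

/-- Transitive imprimitive groups. -/
theorem fam_of_imp : S_imp := by
  classical
  intro Ω _ _ G L hT hP hL
  simp only [Prim, hT, true_and, not_forall, not_or] at hP
  obtain ⟨r, hr, hi, ⟨a, b, hab, hne⟩, a', b', hab'⟩ := hP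
  have hi' : ∀ g ∈ G, ∀ x y, r x y ↔ r (g x) (g y) := fun g hg x y =>
    ⟨hi g hg x y, fun h => by simpa using hi g⁻¹ (G.inv_mem hg) _ _ h⟩
  let s : Setoid Ω := ⟨r, hr⟩
  have hq : ∀ x y, Quotient.mk s x = Quotient.mk s y ↔ r x y := fun x y => Quotient.eq
  have hφ : ∀ y : Quotient s, Nonempty
      ({x // Quotient.mk s x = y} ≃ {x // Quotient.mk s x = Quotient.mk s a}) := by
    intro y
    obtain ⟨z, rfl⟩ := Quotient.exists_rep y
    obtain ⟨g, hg, rfl⟩ := hT z a
    exact ⟨Equiv.subtypeEquiv g fun x => by rw [hq, hq]; exact hi' g hg x z⟩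
  let e : Ω ≃ Quotient s × {x // Quotient.mk s x = Quotient.mk s a} :=
    (Equiv.sigmaFiberEquiv (Quotient.mk s)).symm.trans
      ((Equiv.sigmaCongrRight fun y => (hφ y).some).trans (Equiv.sigmaEquivProd _ _))
  have he : ∀ x y, (e x).1 = (e y).1 ↔ r x y := hq
  haveI : Nontrivial (Quotient s) := ⟨⟨_, _, fun h => hab' ((hq a' b').1 h)⟩⟩
  haveI : Nontrivial {x // Quotient.mk s x = Quotient.mk s a} :=
    ⟨⟨(e a).2, (e b).2, fun h => hne (e.injective (Prod.ext ((he a b).2 hab) h))⟩⟩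
  obtain ⟨F, hF⟩ := im_core (R := Quotient s) (C := {x // Quotient.mk s x = Quotient.mk s a}) L
    ((Fintype.card_le_of_surjective _ Quotient.mk_surjective).trans hL)
    ((Fintype.card_subtype_le _).trans hL)
  let σ : Option (Fin L ⊕ Fin L) → Perm Ω := fun i => e.symm.permCongr (prodCongrLeft (F i))
  refine ⟨univ.image fun i => (σ i)⁻¹, a, card_image_le.trans (by simp; omega), fun g hg h0 => ?_⟩
  have key := hF (e a) (e.permCongr g) (fun i p q => ?_) (by simp [h0])
  · ext x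
    have := key (e x)
    simpa using this
  · have h1 := hi' _ (hg _ (mem_image_of_mem _ (mem_univ i))) (σ i (e.symm p)) (σ i (e.symm q))
    simp only [inv_inv, Perm.mul_apply, Perm.coe_inv, Equiv.symm_apply_apply] at h1
    rw [← he, ← he] at h1
    simpa [σ, prodCongrLeft] using h1

end Pool.Agent.MP_3e5dca_al.H53
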