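import Pool.Agent.MP_3e5dca_al.H53.Comb

/-! Bases, the chain lemma and the lower bound. -/

namespace Pool.Agent.MP_3e5dca_al.H53

open Finset Equiv Equiv.Perm MulAction

/-- `B` is a base of the action of `G` on `X`. -/
def IsBase (G : Type) {X : Type} [Group G] [MulAction G X] (B : Finset X) : Prop :=
  ∀ g : G, (∀ x ∈ B, g • x = x) → g = 1

/-- There is a base with at most `m` points. -/
def HasBase (G X : Type) [Group G] [MulAction G X] (m : ℕ) : Prop :=
  ∃ B : Finset X, B.card ≤ m ∧ IsBase G B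

theorem HasBase.mono {G X : Type} [Group G] [MulAction G X] {m m' : ℕ} (h : HasBase G X m)
    (hm : m ≤ m') : HasBase G X m' := by
  obtain ⟨B, h1, h2⟩ := h
  exact ⟨B, h1.trans hm, h2⟩

theorem chain {G X : Type} [Group G] [Finite G] [MulAction G X] [FaithfulSMul G X] (d : ℕ) :
    ∀ B : Finset X, Nat.card (fixingSubgroup G (B : Set X)) ≤ 2 ^ d →
      HasBase G X (B.card + d) := by
  classical
  have mem : ∀ (B : Finset X) (g : G), g ∈ fixingSubgroup G (B : Set X) ↔ ∀ x ∈ B, g • x = x := by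
    intro B g
    rw [mem_fixingSubgroup_iff]
    simp
  have triv : ∀ B : Finset X, fixingSubgroup G (B : Set X) = ⊥ → IsBase G B := by
    intro B h g hg
    have := (mem B g).mpr hg
    rw [h] at this
    exact Subgroup.mem_bot.mp this
  induction d with
  | zero =>
    intro B hB
    refine ⟨B, le_rfl, triv B ?_⟩
    apply Subgroup.eq_bot_of_card_le
    simpa using hB
  | succ d ih =>
    intro B hB
    by_cases h : fixingSubgroup G (B : Set X) = ⊥
    · exact ⟨B, by omega, triv B h⟩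
    · obtain ⟨⟨g, hg⟩, hg1⟩ := Subgroup.ne_bot_iff_exists_ne_one.mp h
      have hg1' : g ≠ 1 := fun h => hg1 (Subtype.ext h)
      have : ∃ x : X, g • x ≠ x := by
        by_contra hc
        push Not at hc
        exact hg1' (eq_of_smul_eq_smul (α := X) (fun x => by rw [hc x, one_smul]))
      obtain ⟨x, hx⟩ := this
      have hle : fixingSubgroup G ((insert x B : Finset X) : Set X) ≤
          fixingSubgroup G (B : Set X) := by
        intro a ha
        rw [mem] at ha ⊢
        exact fun y hy => ha y (mem_insert_of_mem hy)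
      have hdvd := Subgroup.card_dvd_of_le hle
      have hne : Nat.card (fixingSubgroup G ((insert x B : Finset X) : Set X)) ≠
          Nat.card (fixingSubgroup G (B : Set X)) := by
        intro hc
        have := Subgroup.eq_of_le_of_card_ge hle hc.ge
        rw [← this, mem] at hg
        exact hx (hg x (mem_insert_self _ _))
      obtain ⟨c, hc⟩ := hdvd
      have hpos : 0 < Nat.card (fixingSubgroup G (B : Set X)) := Nat.card_pos
      have hc2 : 2 ≤ c := by
        rcases c with _ | _ | c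
        · omega
        · omega
        · omega
      have := ih (insert x B) (by
        rw [hc, pow_succ] at hB
        nlinarith)
      exact this.mono (by have := card_insert_le x B; omega)

variable {Ω : Type} [Fintype Ω] [DecidableEq Ω]

/-- `A(Yᶜ) ≤ H ≤ Stab(Y)`. -/
structure Typ (H : Subgroup (Perm Ω)) (Y : Finset Ω) : Prop where
  alt : ∀ g : Perm Ω, sign g = 1 → (∀ p ∈ Y, g p = p) → g ∈ H
  pres : ∀ g ∈ H, ∀ p, g p ∈ Y ↔ p ∈ Y

/-- Every even element of `H` fixing `S` pointwise fixes `Y` pointwise. -/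
def EBase (H : Subgroup (Perm Ω)) (Y S : Finset Ω) : Prop :=
  S ⊆ Y ∧ ∀ g ∈ H, sign g = 1 → (∀ p ∈ S, g p = p) → ∀ p ∈ Y, g p = p

theorem exists_restrict (g : Perm Ω) (Y : Finset Ω) (h : ∀ p, g p ∈ Y ↔ p ∈ Y) :
    ∃ κ : Perm Ω, (∀ p ∈ Y, κ p = g p) ∧ ∀ p, p ∉ Y → κ p = p := by
  refine ⟨ofSubtype (g.subtypePerm (p := fun p => p ∈ Y) h), fun p hp => ?_, fun p hp => ?_⟩
  · exact ofSubtype_subtypePerm_of_mem h hp
  · exact ofSubtype_subtypePerm_of_not_mem h hp

theorem sign_cases (g : Perm Ω) : sign g = 1 ∨ sign g = -1 := Int.units_eq_one_or _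

section lower

variable {X : Type} [MulAction (Perm Ω) X] [DecidableEq X]

/-- Points of `Y x` that lie in another set of the family. -/
def Sh (B : Finset X) (Y : X → Finset Ω) (x : X) : Finset Ω :=
  (Y x).filter (fun p => ∃ x' ∈ B, x' ≠ x ∧ p ∈ Y x')

/-- A local element at `x`. -/
structure Loc (B : Finset X) (Y : X → Finset Ω) (x : X) (κ : Perm Ω) : Prop where
  out : ∀ p, p ∉ Y x → κ p = p
  oth : ∀ x' ∈ B, x' ≠ x → ∀ p ∈ Y x', κ p = p
  mul : ∀ π : Perm Ω, (∀ p ∈ Y x, π p = p) → sign π = sign κ → κ * π ∈ stabilizer (Perm Ω) x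
  wit : ∃ π : Perm Ω, (∀ p ∈ Y x, π p = p) ∧ sign π = sign κ

theorem loc_exists {B : Finset X} {Y : X → Finset Ω} {x : X}
    (hT : Typ (stabilizer (Perm Ω) x) (Y x)) {g : Perm Ω} (hg : g ∈ stabilizer (Perm Ω) x)
    (hs : sign g = 1) (hfix : ∀ p ∈ Sh B Y x, g p = p) :
    ∃ κ, Loc B Y x κ ∧ ∀ p ∈ Y x, κ p = g p := by
  obtain ⟨κ, h1, h2⟩ := exists_restrict g (Y x) (hT.pres g hg)
  have hπ : ∀ p ∈ Y x, (κ⁻¹ * g) p = p := by
    intro p hp
    rw [Perm.mul_apply, ← h1 p hp]
    simp
  have hsπ : sign (κ⁻¹ * g) = sign κ := by simp [hs]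
  refine ⟨κ, ⟨h2, ?_, ?_, ⟨κ⁻¹ * g, hπ, hsπ⟩⟩, h1⟩
  · intro x' hx' hne p hp
    by_cases hpx : p ∈ Y x
    · rw [h1 p hpx]
      exact hfix p (mem_filter.mpr ⟨hpx, x', hx', hne, hp⟩)
    · exact h2 p hpx
  · intro π hπ' hsg
    have : κ * π = g * ((κ⁻¹ * g)⁻¹ * π) := by group
    rw [this]
    apply Subgroup.mul_mem _ hg
    apply hT.alt
    · rw [map_mul, map_inv, hsπ, hsg]; simp
    · intro p hp
      rw [Perm.mul_apply, hπ' p hp, Perm.inv_eq_iff_eq]
      exact (hπ p hp).symm

theorem even_triv {B : Finset X} (hB : IsBase (Perm Ω) B) {Y : X → Finset Ω}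
    (hT : ∀ x ∈ B, Typ (stabilizer (Perm Ω) x) (Y x)) (g : Perm Ω) (hs : sign g = 1)
    (h : ∀ x ∈ B, g ∈ stabilizer (Perm Ω) x ∨ ∀ p ∈ Y x, g p = p) : g = 1 := by
  apply hB
  intro x hx
  rcases h x hx with h | h
  · exact h
  · exact (hT x hx).alt g hs h

theorem loc_even {B : Finset X} (hB : IsBase (Perm Ω) B) {Y : X → Finset Ω}
    (hT : ∀ x ∈ B, Typ (stabilizer (Perm Ω) x) (Y x)) {x : X} {κ : Perm Ω}
    (hκ : Loc B Y x κ) (hs : sign κ = 1) : κ = 1 := by
  apply even_triv hB hT κ hs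
  intro y hy
  by_cases h : y = x
  · left
    rw [h]
    simpa using hκ.mul 1 (by simp) (by simp [hs])
  · exact Or.inr (hκ.oth y hy h)

theorem count_pts (B : Finset X) (Y : X → Finset Ω) :
    2 * Fintype.card Ω + ∑ x ∈ B, (Sh B Y x).card ≤
      2 * (univ.filter (fun p => ∀ x ∈ B, p ∉ Y x)).card + ∑ x ∈ B, 2 * (Y x).card := by
  classical
  have hc : ∀ s : Finset Ω, s.card = ∑ p, if p ∈ s then 1 else 0 := by
    intro s
    rw [← card_filter]; congr 1; ext p; simp
  rw [sum_congr rfl (fun x _ => hc (Sh B Y x)), sum_comm, hc (univ.filter _),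
    sum_congr rfl (fun x _ => congrArg (2 * ·) (hc (Y x)))]
  simp only [mul_sum]
  rw [sum_comm (s := B), ← card_univ, card_eq_sum_ones, mul_sum, ← sum_add_distrib,
    ← sum_add_distrib]
  apply sum_le_sum
  intro p _
  by_cases h0 : ∀ x ∈ B, p ∉ Y x
  · have : ∑ x ∈ B, (if p ∈ Sh B Y x then 1 else 0) = 0 := by
      apply sum_eq_zero
      intro x hx
      have : p ∉ Sh B Y x := fun h => h0 x hx (mem_filter.mp h).1
      simp [this]
    rw [this]
    have : p ∈ univ.filter (fun p => ∀ x ∈ B, p ∉ Y x) := mem_filter.mpr ⟨mem_univ _, h0⟩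
    simp [this]
  · push Not at h0
    obtain ⟨x, hx, hp⟩ := h0
    have hle : ∀ y, (if p ∈ Sh B Y y then 1 else 0) ≤ (if p ∈ Y y then 1 else 0) := by
      intro y
      by_cases h : p ∈ Sh B Y y
      · simp [h, (mem_filter.mp h).1]
      · simp [h]
    by_cases h1 : ∃ x' ∈ B, x' ≠ x ∧ p ∈ Y x'
    · obtain ⟨x', hx', hne, hp'⟩ := h1
      have h2 : ∑ y ∈ B, (if p ∈ Sh B Y y then 1 else 0) ≤ ∑ y ∈ B, (if p ∈ Y y then 1 else 0) :=
        sum_le_sum fun y _ => hle y
      have h3 : 2 ≤ ∑ y ∈ B, (if p ∈ Y y then 1 else 0) := by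
        rw [← card_filter]
        exact one_lt_card.mpr ⟨x, mem_filter.mpr ⟨hx, hp⟩, x', mem_filter.mpr ⟨hx', hp'⟩, hne.symm⟩
      rw [← mul_sum]
      omega
    · have : ∑ y ∈ B, (if p ∈ Sh B Y y then 1 else 0) = 0 := by
        apply sum_eq_zero
        intro y hy
        have : p ∉ Sh B Y y := by
          intro h
          obtain ⟨h2, z, hz, hne, hpz⟩ := mem_filter.mp h
          by_cases hyx : y = x
          · exact h1 ⟨z, hz, hyx ▸ hne, hpz⟩
          · exact h1 ⟨y, hy, hyx, h2⟩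
        simp [this]
      have h3 : 1 ≤ ∑ y ∈ B, (if p ∈ Y y then 1 else 0) := by
        rw [← card_filter]
        exact card_pos.mpr ⟨x, mem_filter.mpr ⟨hx, hp⟩⟩
      rw [this, ← mul_sum]
      omega

theorem bad_site {B : Finset X} (hB : IsBase (Perm Ω) B) {Y : X → Finset Ω}
    (hT : ∀ x ∈ B, Typ (stabilizer (Perm Ω) x) (Y x)) {x : X} (hx : x ∈ B)
    (hbad : ¬ EBase (stabilizer (Perm Ω) x) (Y x) (Sh B Y x)) :
    ∃ κ p, Loc B Y x κ ∧ sign κ = -1 ∧ p ∈ Y x ∧ κ p ≠ p := by
  unfold EBase at hbad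
  push Not at hbad
  obtain ⟨g, hg, hs, hfix, p, hp, hgp⟩ := hbad (filter_subset _ _)
  obtain ⟨κ, hκ, hκg⟩ := loc_exists (B := B) (hT x hx) hg hs hfix
  have hκp : κ p ≠ p := by rw [hκg p hp]; exact hgp
  refine ⟨κ, p, hκ, ?_, hp, hκp⟩
  rcases sign_cases κ with h | h
  · exfalso
    apply hκp
    rw [loc_even hB hT hκ h]; rfl
  · exact h

theorem lower {B : Finset X} (hB : IsBase (Perm Ω) B) (Y : X → Finset Ω) (J : ℕ)
    (hT : ∀ x ∈ B, Typ (stabilizer (Perm Ω) x) (Y x))
    (hJ : ∀ x ∈ B, ∀ S, EBase (stabilizer (Perm Ω) x) (Y x) S → 2 * (Y x).card ≤ J + S.card) :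
    2 * Fintype.card Ω ≤ B.card * J + 4 := by
  classical
  have hcount := count_pts B Y
  set U := univ.filter (fun p => ∀ x ∈ B, p ∉ Y x) with hU
  have hUm : ∀ p ∈ U, ∀ x ∈ B, p ∉ Y x := fun p hp => (mem_filter.mp hp).2
  have hswap : ∀ a ∈ U, ∀ b ∈ U, ∀ x ∈ B, ∀ p ∈ Y x, swap a b p = p := by
    intro a ha b hb x hx p hp
    apply swap_apply_of_ne_of_ne
    · rintro rfl; exact hUm _ ha x hx hp
    · rintro rfl; exact hUm _ hb x hx hp
  have hU2 : U.card ≤ 2 := by
    by_contra hc
    obtain ⟨a, ha, b, hb, c, hc, hab, hac, hbc⟩ := two_lt_card.mp (by omega : 2 < U.card)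
    have := even_triv hB hT (swap a b * swap a c) (by simp [hab, hac]) (fun x hx => Or.inr
      (fun p hp => by rw [Perm.mul_apply, hswap a ha c hc x hx p hp, hswap a ha b hb x hx p hp]))
    have h2 := congrArg (fun g : Perm Ω => g c) this
    simp only [Perm.mul_apply, swap_apply_right, swap_apply_left, Perm.one_apply] at h2
    exact hbc h2
  by_cases hall : ∀ x ∈ B, EBase (stabilizer (Perm Ω) x) (Y x) (Sh B Y x)
  · have : ∑ x ∈ B, 2 * (Y x).card ≤ ∑ x ∈ B, (J + (Sh B Y x).card) :=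
      sum_le_sum fun x hx => hJ x hx _ (hall x hx)
    rw [sum_add_distrib, sum_const, smul_eq_mul] at this
    omega
  · push Not at hall
    obtain ⟨x, hx, hbad⟩ := hall
    obtain ⟨κ, p, hκ, hs, hp, hκp⟩ := bad_site hB hT hx hbad
    have hU1 : U.card ≤ 1 := by
      by_contra hc
      obtain ⟨a, ha, b, hb, hab⟩ := one_lt_card.mp (by omega : 1 < U.card)
      have := even_triv hB hT (κ * swap a b) (by simp [hab, hs]) (fun y hy => by
        by_cases h : y = x
        · left
          rw [h]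
          exact hκ.mul _ (hswap a ha b hb x hx) (by simp [hab, hs])
        · right
          intro q hq
          rw [Perm.mul_apply, hswap a ha b hb y hy q hq, hκ.oth y hy h q hq])
      have h2 := congrArg (fun g : Perm Ω => g p) this
      simp only [Perm.mul_apply, hswap a ha b hb x hx p hp, Perm.one_apply] at h2
      exact hκp h2
    have hoth : ∀ y ∈ B, y ≠ x → EBase (stabilizer (Perm Ω) y) (Y y) (Sh B Y y) := by
      intro y hy hne
      by_contra hbad'
      obtain ⟨κ', p', hκ', hs', -, -⟩ := bad_site hB hT hy hbad'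
      have hcomm : κ * κ' = κ' * κ := by
        apply Perm.Disjoint.commute
        intro q
        by_cases hq : q ∈ Y x
        · exact Or.inr (hκ'.oth x hx hne.symm q hq)
        · exact Or.inl (hκ.out q hq)
      have := even_triv hB hT (κ * κ') (by simp [hs, hs']) (fun z hz => by
        by_cases h : z = x
        · left
          rw [h]
          exact hκ.mul _ (hκ'.oth x hx hne.symm) (by rw [hs, hs'])
        · by_cases h' : z = y
          · left
            rw [h', hcomm]
            exact hκ'.mul _ (hκ.oth y hy hne) (by rw [hs, hs'])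
          · right
            intro q hq
            rw [Perm.mul_apply, hκ'.oth z hz h' q hq, hκ.oth z hz h q hq])
      have h2 := congrArg (fun g : Perm Ω => g p) this
      simp only [Perm.mul_apply, hκ'.oth x hx hne.symm p hp, Perm.one_apply] at h2
      exact hκp h2
    have hrep : EBase (stabilizer (Perm Ω) x) (Y x) (insert p (Sh B Y x)) := by
      refine ⟨insert_subset hp (filter_subset _ _), fun g hg hsg hfix q hq => ?_⟩
      obtain ⟨κ', hκ', hκg⟩ := loc_exists (B := B) (hT x hx) hg hsg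
        (fun r hr => hfix r (mem_insert_of_mem hr))
      rcases sign_cases κ' with h | h
      · rw [← hκg q hq, loc_even hB hT hκ' h]; rfl
      · exfalso
        obtain ⟨π, hπ, hsπ⟩ := hκ.wit
        have h1 := hκ.mul π hπ hsπ
        have h2 := hκ'.mul π hπ (by rw [hsπ, hs, h])
        have h3 : κ * κ'⁻¹ ∈ stabilizer (Perm Ω) x := by
          have : κ * κ'⁻¹ = (κ * π) * (κ' * π)⁻¹ := by group
          rw [this]
          exact Subgroup.mul_mem _ h1 (Subgroup.inv_mem _ h2)
        have := even_triv hB hT (κ * κ'⁻¹) (by simp [hs, h]) (fun z hz => by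
          by_cases hzx : z = x
          · left
            rw [hzx]; exact h3
          · right
            intro r hr
            have : κ'⁻¹ r = r := by
              rw [Perm.inv_eq_iff_eq]; exact (hκ'.oth z hz hzx r hr).symm
            rw [Perm.mul_apply, this, hκ.oth z hz hzx r hr])
        have h4 : κ = κ' := mul_inv_eq_one.mp this
        apply hκp
        rw [h4, hκg p hp]
        exact hfix p (mem_insert_self _ _)
    have h5 := hJ x hx _ hrep
    have h6 := card_insert_le p (Sh B Y x)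
    have h7 : ∑ y ∈ B.erase x, 2 * (Y y).card ≤ ∑ y ∈ B.erase x, (J + (Sh B Y y).card) :=
      sum_le_sum fun y hy =>
        hJ y (mem_of_mem_erase hy) _ (hoth y (mem_of_mem_erase hy) (ne_of_mem_erase hy))
    rw [sum_add_distrib, sum_const, smul_eq_mul] at h7
    rw [← add_sum_erase _ _ hx, ← add_sum_erase _ (fun x => 2 * (Y x).card) hx] at hcount
    have h8 : B.card * J = J + (B.erase x).card * J := by
      rw [← card_erase_add_one hx]; ring
    omega

theorem lower_sym {B : Finset X} (hB : IsBase (Perm Ω) B) (Y : X → Finset Ω) (J : ℕ)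
    (hT : ∀ x ∈ B, Typ (stabilizer (Perm Ω) x) (Y x))
    (hS : ∀ x ∈ B, ∀ g : Perm Ω, (∀ p ∈ Y x, g p = p) → g ∈ stabilizer (Perm Ω) x)
    (hJ : ∀ x ∈ B, ∀ S, EBase (stabilizer (Perm Ω) x) (Y x) S → 2 * (Y x).card ≤ J + S.card) :
    2 * Fintype.card Ω ≤ B.card * J + 2 := by
  classical
  have hcount := count_pts B Y
  set U := univ.filter (fun p => ∀ x ∈ B, p ∉ Y x) with hU
  have hUm : ∀ p ∈ U, ∀ x ∈ B, p ∉ Y x := fun p hp => (mem_filter.mp hp).2
  have hU1 : U.card ≤ 1 := by
    by_contra hc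
    obtain ⟨a, ha, b, hb, hab⟩ := one_lt_card.mp (by omega : 1 < U.card)
    have := hB (swap a b) (fun x hx => hS x hx _ (fun p hp => by
      apply swap_apply_of_ne_of_ne
      · rintro rfl; exact hUm _ ha x hx hp
      · rintro rfl; exact hUm _ hb x hx hp))
    exact hab (by simpa using this)
  have hall : ∀ x ∈ B, EBase (stabilizer (Perm Ω) x) (Y x) (Sh B Y x) := by
    intro x hx
    by_contra hbad
    obtain ⟨κ, p, hκ, -, hp, hκp⟩ := bad_site hB hT hx hbad
    obtain ⟨π, hπ, hsπ⟩ := hκ.wit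
    have h1 : κ ∈ stabilizer (Perm Ω) x := by
      have : κ = (κ * π) * π⁻¹ := by group
      rw [this]
      exact Subgroup.mul_mem _ (hκ.mul π hπ hsπ) (Subgroup.inv_mem _ (hS x hx π hπ))
    have := hB κ (fun y hy => by
      by_cases h : y = x
      · rw [h]; exact h1
      · exact hS y hy κ (hκ.oth y hy h))
    apply hκp
    rw [this]; rfl
  have : ∑ x ∈ B, 2 * (Y x).card ≤ ∑ x ∈ B, (J + (Sh B Y x).card) :=
    sum_le_sum fun x hx => hJ x hx _ (hall x hx)
  rw [sum_add_distrib, sum_const, smul_eq_mul] at this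
  omega

end lower

end Pool.Agent.MP_3e5dca_al.H53
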