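import Pool.Agent.MP_3e5dca_al.H53.Spec

/-! Actions that realise the base sizes. -/

namespace Pool.Agent.MP_3e5dca_al.H53

open Finset Equiv Equiv.Perm MulAction

variable {Ω : Type} [Fintype Ω] [DecidableEq Ω]

theorem re_faith {G X : Type} [Group G] [MulAction G X] {m : ℕ} (h : HasBase G X m) :
    FaithfulSMul G X := by
  obtain ⟨B, -, hB⟩ := h
  refine ⟨fun {g₁ g₂} hg => ?_⟩
  have := hB (g₂⁻¹ * g₁) fun x _ => by rw [mul_smul, hg x, inv_smul_smul]
  exact (inv_mul_eq_one.mp this).symm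

/-- Transport of the data along the orbit. -/
theorem re_orbit (H : Subgroup (Perm Ω)) (Y : Finset Ω) (J : ℕ) (hT : Typ H Y)
    (hJ : ∀ S, EBase H Y S → 2 * Y.card ≤ J + S.card) (x : Perm Ω ⧸ H) :
    ∃ Y' : Finset Ω, Typ (stabilizer (Perm Ω) x) Y' ∧
      (∀ S, EBase (stabilizer (Perm Ω) x) Y' S → 2 * Y'.card ≤ J + S.card) ∧
      ((∀ g : Perm Ω, (∀ p ∈ Y, g p = p) → g ∈ H) →
        ∀ g : Perm Ω, (∀ p ∈ Y', g p = p) → g ∈ stabilizer (Perm Ω) x) := by
  obtain ⟨σ, rfl⟩ := QuotientGroup.mk_surjective x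
  have hm : ∀ g : Perm Ω, g ∈ stabilizer (Perm Ω) (σ : Perm Ω ⧸ H) ↔ σ⁻¹ * g * σ ∈ H := by
    intro g
    rw [mem_stabilizer_iff, MulAction.Quotient.smul_mk, smul_eq_mul, eq_comm, QuotientGroup.eq,
      mul_assoc]
  have hy : ∀ p, σ p ∈ Y.map σ.toEmbedding ↔ p ∈ Y := fun p => by simp
  have hfix : ∀ g : Perm Ω, (∀ p ∈ Y.map σ.toEmbedding, g p = p) →
      ∀ p ∈ Y, (σ⁻¹ * g * σ) p = p := fun g hg p hp => by
    simp [Perm.mul_apply, hg _ ((hy p).mpr hp)]
  have hsg : ∀ g : Perm Ω, sign (σ⁻¹ * g * σ) = sign g := fun g => by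
    simp only [map_mul, map_inv]
    rw [mul_right_comm, inv_mul_cancel, one_mul]
  refine ⟨Y.map σ.toEmbedding, ⟨fun g hs hg => ?_, fun g hg p => ?_⟩, fun S hS => ?_,
    fun h g hg => (hm g).mpr (h _ (hfix g hg))⟩
  · exact (hm g).mpr (hT.alt _ ((hsg g).trans hs) (hfix g hg))
  · have h1 := hT.pres _ ((hm g).mp hg) (σ⁻¹ p)
    rw [← hy, ← hy] at h1
    simpa using h1
  · have h1 : EBase H Y (S.map σ⁻¹.toEmbedding) := by
      refine ⟨fun p hp => ?_, fun g hg hs hf p hp => ?_⟩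
      · obtain ⟨q, hq, rfl⟩ := mem_map.mp hp
        rw [← hy]
        simpa using hS.1 hq
      · have e : σ⁻¹ * (σ * g * σ⁻¹) * σ = g := by group
        have h2 := hS.2 (σ * g * σ⁻¹) ((hm _).mpr (by rwa [e])) (by rw [← hsg, e, hs])
          (fun q hq => by
            have := hf (σ⁻¹ q) (mem_map.mpr ⟨q, hq, rfl⟩)
            rw [Perm.mul_apply, Perm.mul_apply, this]
            simp) (σ p) ((hy p).mpr hp)
        simpa [Perm.mul_apply] using h2
    have h2 := hJ _ h1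
    rwa [card_map, ← card_map σ.toEmbedding] at h2

theorem re_low (H : Subgroup (Perm Ω)) (Y : Finset Ω) (J : ℕ) (hT : Typ H Y)
    (hJ : ∀ S, EBase H Y S → 2 * Y.card ≤ J + S.card) (B : Finset (Perm Ω ⧸ H))
    (hB : IsBase (Perm Ω) B) : 2 * Fintype.card Ω ≤ B.card * J + 4 ∧
      ((∀ g : Perm Ω, (∀ p ∈ Y, g p = p) → g ∈ H) → 2 * Fintype.card Ω ≤ B.card * J + 2) := by
  classical
  choose Y' h1 h2 h3 using re_orbit H Y J hT hJ
  exact ⟨lower hB Y' J (fun x _ => h1 x) fun x _ => h2 x,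
    fun h => lower_sym hB Y' J (fun x _ => h1 x) (fun x _ => h3 x h) fun x _ => h2 x⟩

theorem re_num {b c J : ℕ} (h : b * J < c * J + J) : b ≤ c := by
  have : b * J < (c + 1) * J := by rw [add_mul, one_mul]; exact h
  exact Nat.lt_succ_iff.mp (Nat.lt_of_mul_lt_mul_right this)

/-- Elements that fix `Z` pointwise and preserve `Y`. -/
def reH (Z Y : Finset Ω) : Subgroup (Perm Ω) where
  carrier := {g | (∀ p ∈ Z, g p = p) ∧ ∀ p, g p ∈ Y ↔ p ∈ Y}
  one_mem' := ⟨fun _ _ => rfl, fun _ => Iff.rfl⟩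
  mul_mem' := fun {g h} hg hh => ⟨fun p hp => by rw [Perm.mul_apply, hh.1 p hp, hg.1 p hp],
    fun p => by rw [Perm.mul_apply, hg.2, hh.2]⟩
  inv_mem' := fun {g} hg => ⟨fun p hp => by rw [Perm.inv_eq_iff_eq]; exact (hg.1 p hp).symm,
    fun p => by rw [← hg.2]; simp⟩

omit [Fintype Ω] [DecidableEq Ω] in
theorem re_sym {Z Y : Finset Ω} (h : Z ⊆ Y) (g : Perm Ω) (hg : ∀ p ∈ Y, g p = p) :
    g ∈ reH Z Y :=
  ⟨fun p hp => hg p (h hp), fun p => ⟨fun hp => by rwa [g.injective (hg _ hp)] at hp,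
    fun hp => by rwa [hg p hp]⟩⟩

theorem re_typ {Z Y : Finset Ω} (h : Z ⊆ Y) : Typ (reH Z Y) Y :=
  ⟨fun g _ hg => re_sym h g hg, fun _ hg => hg.2⟩

theorem re_data (k J : ℕ) (h2 : 2 ≤ J) (hJ : J = 2 * k ∨ J + 1 = 2 * k)
    (hk : k * (k + 1) + 4 ≤ 2 * Fintype.card Ω) :
    ∃ (H : Subgroup (Perm Ω)) (Y B : Finset Ω), Y.card = k ∧ Typ H Y ∧
      (∀ g : Perm Ω, (∀ p ∈ Y, g p = p) → g ∈ H) ∧ EBase H Y B ∧ B.card < k ∧
      J + B.card = 2 * k ∧ ∀ S, EBase H Y S → 2 * k ≤ J + S.card := by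
  have h0 : k * 2 ≤ k * (k + 1) := Nat.mul_le_mul_left _ (by omega)
  obtain ⟨Y, -, hY⟩ := exists_subset_card_eq (s := (univ : Finset Ω)) (n := k)
    (by rw [card_univ]; omega)
  rcases hJ with hJ | hJ
  · exact ⟨reH Y Y, Y, ∅, hY, re_typ Subset.rfl, re_sym Subset.rfl,
      ⟨empty_subset _, fun g hg _ _ => hg.1⟩, by rw [card_empty]; omega,
      by rw [card_empty]; omega, fun S _ => by omega⟩
  · obtain ⟨a, ha, a', ha', haa⟩ := one_lt_card.mp (by omega : 1 < Y.card)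
    obtain ⟨c, hc, c', hc', hcc⟩ := one_lt_card.mp (by rw [card_compl]; omega : 1 < (Yᶜ).card)
    have hZ : (Y.erase a).erase a' ⊆ Y := (erase_subset _ _).trans (erase_subset _ _)
    have hm : ∀ p, p ∈ (Y.erase a).erase a' ↔ p ≠ a' ∧ p ≠ a ∧ p ∈ Y := fun p => by
      simp only [mem_erase]
    have hτ : ∀ p ∈ Y, swap c c' p = p := by
      intro p hp
      apply swap_apply_of_ne_of_ne
      · rintro rfl; exact mem_compl.mp hc hp
      · rintro rfl; exact mem_compl.mp hc' hp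
    refine ⟨reH ((Y.erase a).erase a') Y, Y, {a}, hY, re_typ hZ, re_sym hZ,
      ⟨singleton_subset_iff.mpr ha, fun g hg _ hf p hp => ?_⟩, by rw [card_singleton]; omega,
      by rw [card_singleton]; omega, fun S hS => ?_⟩
    · have h1 : g a = a := hf a (mem_singleton_self a)
      by_cases e1 : p = a
      · rw [e1, h1]
      by_cases e2 : p = a'
      · by_contra hne
        have e3 : g p ≠ a := fun h => e1 (g.injective (h.trans h1.symm))
        exact hne (g.injective (hg.1 _ ((hm _).mpr ⟨e2 ▸ hne, e3, (hg.2 p).mpr hp⟩)))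
      · exact hg.1 p ((hm p).mpr ⟨e2, e1, hp⟩)
    · by_contra hlt
      have hS0 : S = ∅ := card_eq_zero.mp (by omega)
      have h1 : swap a a' ∈ reH ((Y.erase a).erase a') Y := by
        refine ⟨fun p hp => swap_apply_of_ne_of_ne ((hm p).mp hp).2.1 ((hm p).mp hp).1,
          fun p => ?_⟩
        rw [swap_apply_def]
        split_ifs with e1 e2
        · rw [e1]; exact ⟨fun _ => ha, fun _ => ha'⟩
        · rw [e2]; exact ⟨fun _ => ha', fun _ => ha⟩
        · rfl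
      have h3 := hS.2 (swap a a' * swap c c') (Subgroup.mul_mem _ h1 (re_sym hZ _ hτ))
        (by simp [haa, hcc]) (by simp [hS0]) a ha
      rw [Perm.mul_apply, hτ a ha, swap_apply_left] at h3
      exact haa h3.symm

theorem real0 : S_real0 := by
  intro Ω _ _ k b hk h1 h2
  classical
  obtain ⟨Y, -, hY⟩ := exists_subset_card_eq (s := (univ : Finset Ω)) (n := k)
    (by rw [card_univ]; exact hk)
  have hn : 0 < Fintype.card Ω := by omega
  obtain ⟨p₀⟩ := Fintype.card_pos_iff.mp hn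
  have hb : HasBase (Perm Ω) (Perm Ω ⧸ reH Y Y) b := by
    obtain ⟨P, hP, hcov⟩ := cover_exact k b hk (univ.erase p₀)
      (by rw [card_erase_of_mem (mem_univ _), card_univ]; omega)
    choose σ hσ _ using fun i => perm_map ∅ Y ∅ (P i) (empty_subset _) (empty_subset _) le_rfl
      (hY.trans (hP i).symm)
    refine ⟨univ.image fun i => σ i • ((1 : Perm Ω) : Perm Ω ⧸ reH Y Y),
      card_image_le.trans (by simp), fun g hg => triv_of_one g {p₀} (by simp) fun p hp => ?_⟩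
    obtain ⟨i, hi⟩ := hcov p (mem_erase.mpr ⟨fun h => hp (mem_singleton.mpr h), mem_univ _⟩)
    have h3 := conj_mem (hg _ (mem_image_of_mem _ (mem_univ i)))
    rw [stabilizer_quotient] at h3
    have h4 := h3.1 ((σ i)⁻¹ p) (by rw [← hσ i]; simpa using hi)
    simpa [Perm.mul_apply] using h4
  refine ⟨Perm Ω ⧸ reH Y Y, inferInstance, inferInstance, re_faith hb, hb, fun B hB => ?_⟩
  have h3 := (re_low (reH Y Y) Y (2 * k) (re_typ Subset.rfl) (fun S _ => by omega) B hB).2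
    (re_sym Subset.rfl)
  have h4 : B.card * (2 * k) = 2 * (B.card * k) := by ring
  exact re_num (J := k) (by omega)

theorem real1 : S_real1 := by
  intro Ω _ _ k J b h2 hJ hk h3 h4
  obtain ⟨H, Y, B₀, rfl, hT, hS, hB₀, c1, c2, hl⟩ := re_data (Ω := Ω) k J h2 hJ hk
  have hb : HasBase (Perm Ω) (Perm Ω ⧸ H) b :=
    upper_sym (x := ((1 : Perm Ω) : Perm Ω ⧸ H)) (Y0 := Y) (B0 := B₀)
      (by rwa [stabilizer_quotient]) (by rwa [stabilizer_quotient])
      (by rwa [stabilizer_quotient]) J b hk c1 c2 h3 h4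
  refine ⟨Perm Ω ⧸ H, inferInstance, inferInstance, re_faith hb, hb, fun B hB => ?_⟩
  have h5 := (re_low H Y J hT hl B hB).2 hS
  exact re_num (J := J) (by omega)

theorem real2 : S_real2 := by
  intro Ω _ _ k J b h2 hJ hk h3 h4
  obtain ⟨H, Y, B₀, rfl, hT, -, hB₀, c1, c2, hl⟩ := re_data (Ω := Ω) k J h2 hJ hk
  have hT' : Typ (H ⊓ alternatingGroup Ω) Y :=
    ⟨fun g hs hg => ⟨hT.alt g hs hg, mem_alternatingGroup.mpr hs⟩, fun g hg => hT.pres g hg.1⟩
  have hE : ∀ S, EBase (H ⊓ alternatingGroup Ω) Y S ↔ EBase H Y S := fun S =>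
    ⟨fun h => ⟨h.1, fun g hg hs => h.2 g ⟨hg, mem_alternatingGroup.mpr hs⟩ hs⟩,
      fun h => ⟨h.1, fun g hg => h.2 g hg.1⟩⟩
  have hb : HasBase (Perm Ω) (Perm Ω ⧸ (H ⊓ alternatingGroup Ω)) b :=
    upper_alt (x := ((1 : Perm Ω) : Perm Ω ⧸ (H ⊓ alternatingGroup Ω))) (Y0 := Y) (B0 := B₀)
      (B1 := B₀) (by rwa [stabilizer_quotient]) (by rw [stabilizer_quotient]; exact (hE _).mpr hB₀)
      Subset.rfl hB₀.1
      (by rw [stabilizer_quotient]; exact fun h hh _ => mem_alternatingGroup.mp hh.2)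
      J b hk c1 c2 h3 (by omega) (Or.inl le_rfl)
  refine ⟨Perm Ω ⧸ (H ⊓ alternatingGroup Ω), inferInstance, inferInstance, re_faith hb, hb,
    fun B hB => ?_⟩
  have h5 := (re_low _ Y J hT' (fun S hS => hl S ((hE S).mp hS)) B hB).1
  exact re_num (J := J) (by omega)

end Pool.Agent.MP_3e5dca_al.H53
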