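import Pool.Agent.MP_3e5dca_al.H53.Upper

/-! Statements of the remaining steps. -/

namespace Pool.Agent.MP_3e5dca_al.H53

open Finset Equiv Equiv.Perm MulAction

variable {Ω : Type} [Fintype Ω] [DecidableEq Ω]

/-- Transitive group. -/
def Tra (G : Subgroup (Perm Ω)) : Prop := ∀ a b : Ω, ∃ g ∈ G, g a = b

/-- Invariant relation. -/
def InvRel (G : Subgroup (Perm Ω)) (r : Ω → Ω → Prop) : Prop :=
  ∀ g ∈ G, ∀ a b, r a b → r (g a) (g b)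

/-- Primitive group. -/
def Prim (G : Subgroup (Perm Ω)) : Prop :=
  Tra G ∧ ∀ r : Ω → Ω → Prop, Equivalence r → InvRel G r →
    (∀ a b, r a b → a = b) ∨ (∀ a b, r a b)

/-- No 3-cycle in the group. -/
def NoThree (G : Subgroup (Perm Ω)) : Prop := ∀ g ∈ G, ¬ g.IsThreeCycle

/-- Doubly transitive group. -/
def TwoTra (G : Subgroup (Perm Ω)) : Prop :=
  ∀ a b a' b' : Ω, a ≠ b → a' ≠ b' → ∃ g ∈ G, g a = a' ∧ g b = b'

/-- At most `r` conjugates of `G` whose intersection has a trivial point stabiliser. -/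
def Fam (G : Subgroup (Perm Ω)) (r : ℕ) : Prop :=
  ∃ (T : Finset (Perm Ω)) (p0 : Ω), T.card ≤ r ∧
    ∀ g : Perm Ω, (∀ σ ∈ T, σ⁻¹ * g * σ ∈ G) → g p0 = p0 → g = 1

/-- `b` is the base size of a faithful action of `G` on a finite set. -/
def Realised (G : Type) [Group G] (b : ℕ) : Prop :=
  ∃ (X : Type) (_ : Finite X) (_ : MulAction G X), FaithfulSMul G X ∧ HasBase G X b ∧
    ∀ B : Finset X, IsBase G B → b ≤ B.card

def S_bochert : Prop :=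
  ∀ (Ω : Type) [Fintype Ω] [DecidableEq Ω] (G : Subgroup (Perm Ω)), NoThree G →
    ∃ D : Finset Ω, 2 * D.card ≤ Fintype.card Ω ∧ ∀ g ∈ G, (∀ p ∈ D, g p = p) → g = 1

def S_two : Prop :=
  ∀ (Ω : Type) [Fintype Ω] [DecidableEq Ω] (G : Subgroup (Perm Ω)), NoThree G → TwoTra G →
    ∀ x ∈ G, x ≠ 1 → Fintype.card Ω ≤ x.support.card ^ 2

def S_uni : Prop :=
  ∀ (Ω : Type) [Fintype Ω] [DecidableEq Ω] (G : Subgroup (Perm Ω)), Prim G → ¬ TwoTra G →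
    96 ≤ Fintype.card Ω → ∀ x ∈ G, x ≠ 1 → 2 * Fintype.card Ω ≤ 3 * x.support.card ^ 2

def S_fam : Prop :=
  ∀ (Ω : Type) [Fintype Ω] [DecidableEq Ω] [Nonempty Ω] (G : Subgroup (Perm Ω)) (D : Finset Ω)
    (s r : ℕ), (∀ g ∈ G, (∀ p ∈ D, g p = p) → g = 1) →
    (∀ x ∈ G, x ≠ 1 → 2 * (s + 1) < x.support.card) → D.card ≤ r * s → Fam G (r + 1)

def S_imp : Prop :=
  ∀ (Ω : Type) [Fintype Ω] [DecidableEq Ω] (G : Subgroup (Perm Ω)) (L : ℕ), Tra G → ¬ Prim G →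
    Fintype.card Ω ≤ 2 ^ L → Fam G (2 * L + 1)

def S_jordan : Prop :=
  ∀ (Ω : Type) [Fintype Ω] [DecidableEq Ω] (G : Subgroup (Perm Ω)), Prim G → ¬ NoThree G →
    alternatingGroup Ω ≤ G

def S_alt : Prop :=
  ∀ (Ω : Type) [Fintype Ω] [DecidableEq Ω] (H : Subgroup (Perm Ω)) (Y : Finset Ω),
    (∀ g ∈ H, ∀ p, g p ∈ Y ↔ p ∈ Y) → 3 * Y.card + 5 ≤ Fintype.card Ω →
    (∀ c : Perm {p : Ω // p ∉ Y}, sign c = 1 → ∃ h ∈ H, ∀ p : {p : Ω // p ∉ Y}, h p.1 = (c p).1) →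
    Typ H Y

def S_real0 : Prop :=
  ∀ (Ω : Type) [Fintype Ω] [DecidableEq Ω] (k b : ℕ), k ≤ Fintype.card Ω →
    Fintype.card Ω ≤ b * k + 1 → b * k + 2 ≤ Fintype.card Ω + k → Realised (Perm Ω) b

def S_real1 : Prop :=
  ∀ (Ω : Type) [Fintype Ω] [DecidableEq Ω] (k J b : ℕ), 2 ≤ J → (J = 2 * k ∨ J + 1 = 2 * k) →
    k * (k + 1) + 4 ≤ 2 * Fintype.card Ω → 2 * Fintype.card Ω ≤ b * J + 2 →
    b * J + 3 ≤ 2 * Fintype.card Ω + J → Realised (Perm Ω) b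

def S_real2 : Prop :=
  ∀ (Ω : Type) [Fintype Ω] [DecidableEq Ω] (k J b : ℕ), 2 ≤ J → (J = 2 * k ∨ J + 1 = 2 * k) →
    k * (k + 1) + 4 ≤ 2 * Fintype.card Ω → 2 * Fintype.card Ω ≤ b * J + 4 →
    b * J + 5 ≤ 2 * Fintype.card Ω + J → Realised (Perm Ω) b

end Pool.Agent.MP_3e5dca_al.H53
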