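import Pool.Agent.MP_3e5dca_al.H53.Spec

namespace Pool.Agent.MP_3e5dca_al.H53

open Finset Equiv Equiv.Perm MulAction

variable {Ω : Type} [Fintype Ω] [DecidableEq Ω]

theorem th_comm (x y : Perm Ω) (a : Ω) (hx : x a ≠ a) (hy : y a ≠ a)
    (h : ∀ p, p ≠ a → x p = p ∨ y p = p) : (x * y * x⁻¹ * y⁻¹).IsThreeCycle := by
  have hxi : ∀ p, x (x⁻¹ p) = p := fun p => by simp
  have hyi : ∀ p, y (y⁻¹ p) = p := fun p => by simp
  have hfx : ∀ p, x p = p → x⁻¹ p = p := fun p hp => x.injective (by rw [hxi, hp])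
  have hfy : ∀ p, y p = p → y⁻¹ p = p := fun p hp => y.injective (by rw [hyi, hp])
  have hz : ∀ p, (x * y * x⁻¹ * y⁻¹) p = x (y (x⁻¹ (y⁻¹ p))) := fun p => rfl
  have hsub : (x * y * x⁻¹ * y⁻¹).support ⊆ {a, x a, y a} := by
    intro p hp
    by_contra hn
    simp only [mem_insert, mem_singleton, not_or] at hn
    obtain ⟨h1, h2, h3⟩ := hn
    apply mem_support.1 hp
    rw [hz]
    by_cases hyp : y p = p
    · rw [hfy p hyp]
      have hr : x⁻¹ p ≠ a := fun e => h2 (by rw [← e, hxi])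
      rcases h _ hr with e | e
      · have e' : x⁻¹ p = p := by rw [← e, hxi]
        rw [e', hyp]
        rw [e'] at e
        exact e
      · rw [e, hxi]
    · have hxp : x p = p := (h p h1).resolve_right hyp
      have hq : y⁻¹ p ≠ a := fun e => h3 (by rw [← e, hyi])
      have hq' : y (y⁻¹ p) ≠ y⁻¹ p := by
        intro e
        have e' : y⁻¹ p = p := by rw [← e, hyi]
        rw [e'] at e
        exact hyp e
      rw [hfx _ ((h _ hq).resolve_right hq'), hyi, hxp]
  have hne : (x * y * x⁻¹ * y⁻¹) ≠ 1 := by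
    intro e
    have h0 : (x * y * x⁻¹ * y⁻¹) (y a) = y a := by rw [e]; rfl
    have hr : x⁻¹ a ≠ a := fun e => hx (by rw [← e, hxi, e])
    have hr' : x (x⁻¹ a) ≠ x⁻¹ a := by rw [hxi]; exact hr.symm
    have hya : y⁻¹ (y a) = a := by simp
    rw [hz, hya, (h _ hr).resolve_left hr', hxi] at h0
    exact hy h0.symm
  have hsign : sign (x * y * x⁻¹ * y⁻¹) = 1 := by
    simp only [map_mul, sign_inv]
    rcases Int.units_eq_one_or (sign x) with e | e <;>
      rcases Int.units_eq_one_or (sign y) with e' | e' <;> simp [e, e']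
  have h3 : (x * y * x⁻¹ * y⁻¹).support.card ≤ 3 := (card_le_card hsub).trans card_le_three
  have h1 : ¬ (x * y * x⁻¹ * y⁻¹).support.card ≤ 1 := fun e => hne (card_support_le_one.1 e)
  have h2 : (x * y * x⁻¹ * y⁻¹).support.card ≠ 2 := by
    intro e
    have := (card_support_eq_two.1 e).sign_eq
    rw [hsign] at this
    exact absurd this (by decide)
  exact card_support_eq_three_iff.1 (by omega)

theorem th_meet {G : Subgroup (Perm Ω)} (hG : NoThree G) {x y : Perm Ω} (hx : x ∈ G) (hy : y ∈ G)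
    {a : Ω} (hxa : x a ≠ a) (hya : y a ≠ a) : ∃ p, p ≠ a ∧ x p ≠ p ∧ y p ≠ p := by
  by_contra hn
  push Not at hn
  refine hG _ (G.mul_mem (G.mul_mem (G.mul_mem hx hy) (G.inv_mem hx)) (G.inv_mem hy))
    (th_comm x y a hxa hya fun p hp => ?_)
  by_cases e : x p = p
  · exact Or.inl e
  · exact Or.inr (hn p hp e)

theorem bochert : S_bochert := by
  intro Ω _ _ G hG
  classical
  obtain ⟨D, hD, hmin⟩ := exists_min_image
    (univ.filter fun D : Finset Ω => ∀ g ∈ G, (∀ p ∈ D, g p = p) → g = 1) Finset.card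
    ⟨univ, mem_filter.2 ⟨mem_univ _, fun g _ h => Equiv.ext fun p => h p (mem_univ p)⟩⟩
  have hD' := (mem_filter.1 hD).2
  refine ⟨D, ?_, hD'⟩
  by_contra hn
  have key : ∀ C : Finset Ω, C.card < D.card → ∃ g ∈ G, (∀ p ∈ C, g p = p) ∧ g ≠ 1 := by
    intro C hC
    by_contra hc
    push Not at hc
    exact absurd (hmin C (mem_filter.2 ⟨mem_univ _, hc⟩)) (by omega)
  have hc : Dᶜ.card < D.card := by
    have := card_le_univ D
    rw [card_compl]
    omega
  obtain ⟨x, hx, hxf, hx1⟩ := key _ hc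
  obtain ⟨a, ha⟩ : ∃ a, x a ≠ a := by
    by_contra hh
    push Not at hh
    exact hx1 (Equiv.ext hh)
  have haD : a ∈ D := by
    by_contra hh
    exact ha (hxf a (mem_compl.2 hh))
  obtain ⟨y, hy, hyf, hy1⟩ := key (D.erase a) (card_erase_lt_of_mem haD)
  have hya : y a ≠ a := by
    intro e
    refine hy1 (hD' y hy fun p hp => ?_)
    by_cases hpa : p = a
    · rw [hpa, e]
    · exact hyf p (mem_erase.2 ⟨hpa, hp⟩)
  obtain ⟨p, hp, h1, h2⟩ := th_meet hG hx hy ha hya
  by_cases hpD : p ∈ D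
  · exact h2 (hyf p (mem_erase.2 ⟨hp, hpD⟩))
  · exact h1 (hxf p (mem_compl.2 hpD))

theorem two_bound : S_two := by
  intro Ω _ _ G hG h2 x hx hx1
  classical
  obtain ⟨a, ha⟩ : ∃ a, x a ≠ a := by
    by_contra hh
    push Not at hh
    exact hx1 (Equiv.ext hh)
  have haS : a ∈ x.support := mem_support.2 ha
  set Ga : Finset (Perm Ω) := univ.filter fun g => g ∈ G ∧ g a = a with hGa
  have hmem : ∀ g, g ∈ Ga ↔ g ∈ G ∧ g a = a := fun g => by simp [hGa]
  have hfib : ∀ c c', c ≠ a → c' ≠ a →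
      (Fintype.card Ω - 1) * (Ga.filter fun g => g c = c').card ≤ Ga.card := by
    intro c c' hc hc'
    have h1 : Ga.card = ∑ d ∈ univ.erase a, (Ga.filter fun g => g c = d).card := by
      refine card_eq_sum_card_fiberwise (f := fun g : Perm Ω => g c) fun g hg => ?_
      have hg' := (hmem g).1 (mem_coe.1 hg)
      refine mem_coe.2 (mem_erase.2 ⟨fun e => hc (g.injective (by rw [hg'.2]; exact e)),
        mem_univ _⟩)
    have h3 : ∀ d ∈ univ.erase a, (Ga.filter fun g => g c = c').card ≤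
        (Ga.filter fun g => g c = d).card := by
      intro d hd
      obtain ⟨h, hh, hha, hhc⟩ := h2 a c' a d hc'.symm (mem_erase.1 hd).1.symm
      refine card_le_card_of_injOn (fun g => h * g) (fun g hg => ?_)
        fun g _ g' _ e => mul_left_cancel e
      have hg' := mem_filter.1 (mem_coe.1 hg)
      have hg'' := (hmem g).1 hg'.1
      refine mem_coe.2 (mem_filter.2 ⟨(hmem _).2 ⟨G.mul_mem hh hg''.1, ?_⟩, ?_⟩)
      · rw [Perm.mul_apply, hg''.2, hha]
      · rw [Perm.mul_apply, hg'.2, hhc]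
    have h4 := card_nsmul_le_sum _ _ _ h3
    rw [card_erase_of_mem (mem_univ a), card_univ, smul_eq_mul] at h4
    rw [h1]
    exact h4
  have hcov : Ga ⊆ ((x.support.erase a) ×ˢ (x.support.erase a)).biUnion
      fun w => Ga.filter fun g => g w.1 = w.2 := by
    intro g hg
    have hg' := (hmem g).1 hg
    have hgi : g⁻¹ a = a := g.injective (by simp [hg'.2])
    have hya : (g * x * g⁻¹) a ≠ a := by
      rw [Perm.mul_apply, Perm.mul_apply, hgi]
      intro e
      exact ha (g.injective (by rw [e, hg'.2]))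
    obtain ⟨p, hp, h1, h3⟩ := th_meet hG hx
      (G.mul_mem (G.mul_mem hg'.1 hx) (G.inv_mem hg'.1)) ha hya
    have hgp : g (g⁻¹ p) = p := by simp
    refine mem_biUnion.2 ⟨(g⁻¹ p, p), mem_product.2 ⟨mem_erase.2 ⟨fun e => hp ?_,
      mem_support.2 fun e => h3 ?_⟩, mem_erase.2 ⟨hp, mem_support.2 h1⟩⟩, mem_filter.2 ⟨hg, hgp⟩⟩
    · have e' : g⁻¹ p = a := e
      rw [← hgp, e', hg'.2]
    · have e' : x (g⁻¹ p) = g⁻¹ p := e
      rw [Perm.mul_apply, Perm.mul_apply, e', hgp]
  have h5 := (card_le_card hcov).trans card_biUnion_le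
  have h6 : (Fintype.card Ω - 1) * Ga.card ≤
      (x.support.card - 1) * (x.support.card - 1) * Ga.card := by
    refine (Nat.mul_le_mul_left _ h5).trans ?_
    rw [mul_sum]
    refine (sum_le_card_nsmul _ _ Ga.card fun w hw => ?_).trans ?_
    · have hw' := mem_product.1 hw
      exact hfib _ _ (mem_erase.1 hw'.1).1 (mem_erase.1 hw'.2).1
    · rw [card_product, card_erase_of_mem haS, smul_eq_mul]
  have hpos : 0 < Ga.card := card_pos.2 ⟨1, (hmem 1).2 ⟨G.one_mem, rfl⟩⟩
  have h7 := Nat.le_of_mul_le_mul_right h6 hpos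
  have hm : 0 < x.support.card := card_pos.2 ⟨a, haS⟩
  obtain ⟨k, hk⟩ : ∃ k, x.support.card = k + 1 := ⟨_, (Nat.succ_pred_eq_of_pos hm).symm⟩
  rw [hk, Nat.add_sub_cancel] at h7
  rw [hk]
  have : (k + 1) ^ 2 = k * k + 2 * k + 1 := by ring
  omega

end Pool.Agent.MP_3e5dca_al.H53
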