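import Pool.Agent.MP_3e5dca_al.H53.Spec

/-! The minimal degree of a primitive group that is not doubly transitive. -/

set_option linter.unusedSectionVars false

namespace Pool.Agent.MP_3e5dca_al.H53

open Finset Equiv Equiv.Perm MulAction Classical

variable {Ω : Type} [Fintype Ω] [DecidableEq Ω] {G : Subgroup (Perm Ω)}

/-- `a` and `b` lie in one orbit of the stabiliser of `c`. -/
def un_Same (G : Subgroup (Perm Ω)) (c a b : Ω) : Prop := ∃ g ∈ G, g c = c ∧ g a = b

/-- The points whose stabiliser separates `a` and `b`. -/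
noncomputable def un_D (G : Subgroup (Perm Ω)) (a b : Ω) : Finset Ω :=
  univ.filter fun c => ¬ un_Same G c a b

/-- The out-set of a relation. -/
noncomputable def un_out (r : Ω → Ω → Prop) (a : Ω) : Finset Ω := univ.filter fun b => r a b

theorem un_mem_out {r : Ω → Ω → Prop} {a b : Ω} : b ∈ un_out r a ↔ r a b := by simp [un_out]

theorem un_mem_D {a b c : Ω} : c ∈ un_D G a b ↔ ¬ un_Same G c a b := by simp [un_D]

theorem un_refl (c a : Ω) : un_Same G c a a := ⟨1, G.one_mem, rfl, rfl⟩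

theorem un_symm {c a b : Ω} (h : un_Same G c a b) : un_Same G c b a := by
  obtain ⟨g, hg, h1, h2⟩ := h
  exact ⟨g⁻¹, G.inv_mem hg, by rw [Perm.inv_eq_iff_eq, h1], by rw [Perm.inv_eq_iff_eq, h2]⟩

theorem un_trans {c a b w : Ω} (h : un_Same G c a b) (h' : un_Same G c b w) :
    un_Same G c a w := by
  obtain ⟨g, hg, h1, h2⟩ := h
  obtain ⟨k, hk, k1, k2⟩ := h'
  exact ⟨k * g, G.mul_mem hk hg, by rw [Perm.mul_apply, h1, k1], by rw [Perm.mul_apply, h2, k2]⟩

theorem un_conj {g : Perm Ω} (hg : g ∈ G) {c a b : Ω} (h : un_Same G c a b) :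
    un_Same G (g c) (g a) (g b) := by
  obtain ⟨k, hk, k1, k2⟩ := h
  exact ⟨g * k * g⁻¹, G.mul_mem (G.mul_mem hg hk) (G.inv_mem hg), by simp [k1], by simp [k2]⟩

theorem un_D_le {g : Perm Ω} (hg : g ∈ G) (a b : Ω) :
    (un_D G (g a) (g b)).card ≤ (un_D G a b).card := by
  refine card_le_card_of_injOn (fun c => g⁻¹ c) (fun c hc => ?_) (g⁻¹).injective.injOn
  rw [mem_coe, un_mem_D] at hc ⊢
  intro h
  have := un_conj hg h
  simp only [Perm.coe_inv, apply_symm_apply] at this
  exact hc this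

theorem un_D_symm (a b : Ω) : un_D G a b = un_D G b a := by
  ext c
  rw [un_mem_D, un_mem_D]
  exact not_congr ⟨un_symm, un_symm⟩

theorem un_D_tri (a b w : Ω) : (un_D G a w).card ≤ (un_D G a b).card + (un_D G b w).card := by
  refine le_trans (card_le_card fun c hc => ?_) (card_union_le _ _)
  rw [mem_union, un_mem_D, un_mem_D]
  rw [un_mem_D] at hc
  by_contra h
  push Not at h
  exact hc (un_trans h.1 h.2)

theorem un_out_le (hT : Tra G) {r : Ω → Ω → Prop} (hr : InvRel G r) (a b : Ω) :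
    (un_out r a).card ≤ (un_out r b).card := by
  obtain ⟨g, hg, rfl⟩ := hT a b
  refine card_le_card_of_injOn g (fun c hc => ?_) g.injective.injOn
  rw [mem_coe, un_mem_out] at hc ⊢
  exact hr g hg _ _ hc

theorem un_P (hP : Prim G) {r : Ω → Ω → Prop} (hr : InvRel G r) (h1 : ∀ a, r a a)
    (h2 : ∀ a b c, r a b → r b c → r a c) : (∀ a b, r a b → a = b) ∨ (∀ a b, r a b) := by
  refine hP.2 r ⟨h1, fun {a b} h => ?_, fun h h' => h2 _ _ _ h h'⟩ hr
  have e : un_out r b = un_out r a := eq_of_subset_of_card_le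
    (fun c hc => un_mem_out.2 (h2 _ _ _ h (un_mem_out.1 hc))) (un_out_le hP.1 hr a b)
  exact un_mem_out.1 (e ▸ un_mem_out.2 (h1 a))

/-- The orbital graph. -/
def un_Adj (G : Subgroup (Perm Ω)) (α β a b : Ω) : Prop :=
  ∃ g ∈ G, (g α = a ∧ g β = b) ∨ (g α = b ∧ g β = a)

variable {α β : Ω}

theorem un_adj_symm {a b : Ω} (h : un_Adj G α β a b) : un_Adj G α β b a := by
  obtain ⟨g, hg, h⟩ := h
  exact ⟨g, hg, h.symm⟩

theorem un_adj_inv : InvRel G (un_Adj G α β) := by
  rintro g hg a b ⟨k, hk, h⟩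
  refine ⟨g * k, G.mul_mem hg hk, ?_⟩
  rcases h with ⟨rfl, rfl⟩ | ⟨rfl, rfl⟩
  · exact Or.inl ⟨rfl, rfl⟩
  · exact Or.inr ⟨rfl, rfl⟩

theorem un_adj_D {m : ℕ} (hm : (un_D G α β).card ≤ m) {a b : Ω} (h : un_Adj G α β a b) :
    (un_D G a b).card ≤ m := by
  obtain ⟨g, hg, ⟨rfl, rfl⟩ | ⟨rfl, rfl⟩⟩ := h
  · exact (un_D_le hg _ _).trans hm
  · rw [un_D_symm]; exact (un_D_le hg _ _).trans hm

theorem un_conn (hP : Prim G) (hne : α ≠ β) (Q : Ω → Prop) {a : Ω} (ha : Q a)
    (hQ : ∀ u v, Q u → un_Adj G α β u v → Q v) (w : Ω) : Q w := by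
  have h := un_P hP (r := Relation.ReflTransGen (un_Adj G α β))
    (fun g hg u v h => by
      induction h with
      | refl => exact .refl
      | tail _ h ih => exact ih.tail (un_adj_inv g hg _ _ h))
    (fun _ => .refl) fun _ _ _ => .trans
  have h3 : Relation.ReflTransGen (un_Adj G α β) a w :=
    h.resolve_left (fun h => hne (h _ _ (.single ⟨1, G.one_mem, Or.inl ⟨rfl, rfl⟩⟩))) a w
  induction h3 with
  | refl => exact ha
  | tail _ h ih => exact hQ _ _ ih h

theorem un_deg (hP : Prim G) (hne : α ≠ β) {m : ℕ} (hm : (un_D G α β).card ≤ m) (a : Ω) :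
    Fintype.card Ω ≤ (un_out (un_Adj G α β) a).card * m := by
  have key : ∀ c, ∃ b, un_Adj G α β a b ∧ c ∈ un_D G a b := fun c => by
    by_contra hn
    have h1 : ∀ b, un_Adj G α β a b → un_Same G c a b := fun b hb => by
      by_contra h
      exact hn ⟨b, hb, un_mem_D.2 h⟩
    have h2 := un_conn hP hne (un_Same G c a) (un_refl c a) (by
      rintro u v ⟨g, hg, g1, rfl⟩ huv
      have h3 := un_adj_inv g⁻¹ (G.inv_mem hg) _ _ huv
      simp only [Perm.coe_inv, symm_apply_apply] at h3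
      exact un_trans (h1 _ h3) ⟨g, hg, g1, by simp⟩)
    have h4 : ∀ b, b = c := fun b => by
      obtain ⟨g, -, g1, g2⟩ := un_trans (un_symm (h2 c)) (h2 b)
      rw [← g2, g1]
    exact hne ((h4 α).trans (h4 β).symm)
  calc Fintype.card Ω = (univ : Finset Ω).card := card_univ.symm
    _ ≤ ((un_out (un_Adj G α β) a).biUnion fun b => un_D G a b).card :=
      card_le_card fun c _ => by
        obtain ⟨b, h1, h2⟩ := key c
        exact mem_biUnion.2 ⟨b, un_mem_out.2 h1, h2⟩
    _ ≤ _ := card_biUnion_le_card_mul _ _ _ fun b hb => un_adj_D hm (un_mem_out.1 hb)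

/-- Distance at most two. -/
def un_Near (G : Subgroup (Perm Ω)) (α β a w : Ω) : Prop :=
  w = a ∨ un_Adj G α β a w ∨ ∃ b, un_Adj G α β a b ∧ un_Adj G α β b w

theorem un_near_D {m : ℕ} (hm : (un_D G α β).card ≤ m) {a w : Ω} (h : un_Near G α β a w) :
    (un_D G a w).card ≤ 2 * m := by
  rcases h with rfl | h | ⟨b, h1, h2⟩
  · have : un_D G w w = ∅ := eq_empty_of_forall_notMem fun c hc => un_mem_D.1 hc (un_refl _ _)
    rw [this]; simp
  · have := un_adj_D hm h
    omega
  · have := un_D_tri (G := G) a b w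
    have := un_adj_D hm h1
    have := un_adj_D hm h2
    omega

theorem un_far (hP : Prim G) (hne : α ≠ β) {m : ℕ} (hm : (un_D G α β).card ≤ m) {a w : Ω}
    (h : ¬ un_Near G α β a w) : 2 * Fintype.card Ω ≤ 3 * m ^ 2 := by
  obtain ⟨v, w, hv, hvw, hw⟩ : ∃ v w, un_Near G α β a v ∧ un_Adj G α β v w ∧
      ¬ un_Near G α β a w := by
    by_contra hn
    exact h (un_conn hP hne (un_Near G α β a) (Or.inl rfl)
      (fun u v hu huv => by_contra fun hv => hn ⟨u, v, hu, huv, hv⟩) w)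
  have h1 := un_D_tri (G := G) a v w
  have h2 := un_near_D hm hv
  have h3 := un_adj_D hm hvw
  have hd : Disjoint (un_out (un_Adj G α β) a) (un_out (un_Adj G α β) w) :=
    disjoint_left.2 fun c h4 h5 =>
      hw (Or.inr (Or.inr ⟨c, un_mem_out.1 h4, un_adj_symm (un_mem_out.1 h5)⟩))
  have hs : un_out (un_Adj G α β) a ∪ un_out (un_Adj G α β) w ⊆ un_D G a w := fun c hc => by
    rw [un_mem_D]
    intro hS
    rcases mem_union.1 hc with h4 | h4
    · obtain ⟨g, hg, g1, g2⟩ := hS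
      have := un_adj_inv g hg _ _ (un_mem_out.1 h4)
      rw [g1, g2] at this
      exact disjoint_left.1 hd h4 (un_mem_out.2 this)
    · obtain ⟨g, hg, g1, g2⟩ := un_symm hS
      have := un_adj_inv g hg _ _ (un_mem_out.1 h4)
      rw [g1, g2] at this
      exact disjoint_left.1 hd (un_mem_out.2 this) h4
  have h4 := card_le_card hs
  rw [card_union_of_disjoint hd] at h4
  have h5 := un_deg hP hne hm a
  have h6 := un_deg hP hne hm w
  have h7 : ((un_out (un_Adj G α β) a).card + (un_out (un_Adj G α β) w).card) * m ≤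
      (3 * m) * m := Nat.mul_le_mul_right _ (by omega)
  nlinarith

theorem un_sq (hP : Prim G) (h2 : ¬ TwoTra G) {c a : Ω} (hne : c ≠ a) :
    Fintype.card Ω ≤ (un_out (fun u v => ¬ un_Same G c u v) a).card ^ 2 := by
  let r : Ω → Ω → Prop := fun u v => ¬ ∃ g ∈ G, g c = u ∧ g a = v
  have hr : InvRel G r := by
    rintro g hg u v h ⟨k, hk, k1, k2⟩
    exact h ⟨g⁻¹ * k, G.mul_mem (G.inv_mem hg) hk, by simp [k1], by simp [k2]⟩
  have h1 : ∀ u, r u u := by
    rintro u ⟨g, -, g1, g2⟩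
    exact hne (g.injective (g1.trans g2.symm))
  have h3 : ¬ ∀ u v w, r u v → r v w → r u w := fun h => by
    rcases un_P hP hr h1 h with h4 | h4
    · refine h2 fun u v u' v' huv huv' => ?_
      obtain ⟨g, hg, rfl, rfl⟩ : ∃ g ∈ G, g c = u ∧ g a = v := by_contra fun h5 => huv (h4 _ _ h5)
      obtain ⟨k, hk, rfl, rfl⟩ : ∃ g ∈ G, g c = u' ∧ g a = v' :=
        by_contra fun h5 => huv' (h4 _ _ h5)
      exact ⟨k * g⁻¹, G.mul_mem hk (G.inv_mem hg), by simp, by simp⟩
    · exact h4 c a ⟨1, G.one_mem, rfl, rfl⟩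
  obtain ⟨v, v1, v2⟩ : ∃ v, r c v ∧ r v a := by
    by_contra hn
    refine h3 fun u v w huv hvw => ?_
    rintro ⟨g, hg, rfl, rfl⟩
    have e1 := hr g⁻¹ (G.inv_mem hg) _ _ huv
    have e2 := hr g⁻¹ (G.inv_mem hg) _ _ hvw
    simp only [Perm.coe_inv, symm_apply_apply] at e1 e2
    exact hn ⟨_, e1, e2⟩
  have e : un_out (fun u v => ¬ un_Same G c u v) a = un_out r c := rfl
  rw [e, sq]
  calc Fintype.card Ω = (univ : Finset Ω).card := card_univ.symm
    _ ≤ ((un_out r c).biUnion fun b => un_out r b).card :=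
      card_le_card fun b _ => by
        by_cases hb : r c b
        · exact mem_biUnion.2 ⟨b, un_mem_out.2 hb, un_mem_out.2 (h1 b)⟩
        · obtain ⟨g, hg, g1, g2⟩ := not_not.1 hb
          have e1 := hr g hg _ _ v1
          have e2 := hr g hg _ _ v2
          rw [g1] at e1
          rw [g2] at e2
          exact mem_biUnion.2 ⟨g v, un_mem_out.2 e1, un_mem_out.2 e2⟩
    _ ≤ _ := card_biUnion_le_card_mul _ _ _ fun b _ => un_out_le hP.1 hr b c

theorem un_sq' (hP : Prim G) (h2 : ¬ TwoTra G) (hn : 3 ≤ Fintype.card Ω) (c a : Ω) :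
    Fintype.card Ω ≤ (un_out (fun u v => ¬ un_Same G c u v) a).card ^ 2 := by
  by_cases h : c = a
  · subst h
    have h1 : univ.erase c ⊆ un_out (fun u v => ¬ un_Same G c u v) c := fun b hb => by
      rw [un_mem_out]
      rintro ⟨g, -, g1, g2⟩
      exact (mem_erase.1 hb).1 (g2.symm.trans g1)
    have h3 := card_le_card h1
    rw [card_erase_of_mem (mem_univ _), card_univ] at h3
    obtain ⟨k, hk⟩ := Nat.exists_eq_add_of_le hn
    have h4 : k + 2 ≤ (un_out (fun u v => ¬ un_Same G c u v) c).card := by omega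
    have h5 := Nat.pow_le_pow_left h4 2
    nlinarith
  · exact un_sq hP h2 h

theorem un_pairs [Nonempty Ω] {k : ℕ} (h : ∀ a b, (un_D G a b).card ≤ k) :
    ∃ c, ∑ a, (un_out (fun u v => ¬ un_Same G c u v) a).card ≤ k * Fintype.card Ω := by
  have h1 : ∑ c : Ω, ∑ a, (un_out (fun u v => ¬ un_Same G c u v) a).card ≤
      ∑ _c : Ω, k * Fintype.card Ω := by
    rw [sum_comm]
    refine sum_le_sum fun a _ => ?_
    have e : ∑ c : Ω, (un_out (fun u v => ¬ un_Same G c u v) a).card =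
        ∑ b : Ω, (un_D G a b).card := by
      simp only [un_out, un_D, card_filter]
      rw [sum_comm]
    rw [e]
    calc ∑ b : Ω, (un_D G a b).card ≤ ∑ _b : Ω, k := sum_le_sum fun b _ => h a b
      _ = k * Fintype.card Ω := by simp [mul_comm]
  obtain ⟨c, -, hc⟩ := exists_le_of_sum_le univ_nonempty h1
  exact ⟨c, hc⟩

theorem un_two (c a : Ω) : ∃ ρ, ρ + (un_out (fun u v => ¬ un_Same G c u v) a).card =
    Fintype.card Ω ∧ 2 * (ρ * (un_out (fun u v => ¬ un_Same G c u v) a).card) ≤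
      ∑ u, (un_out (fun u v => ¬ un_Same G c u v) u).card := by
  set Y := un_out (fun u v => ¬ un_Same G c u v) a with hY
  have hm : ∀ u, u ∈ Y ↔ ¬ un_Same G c a u := fun u => un_mem_out
  refine ⟨Yᶜ.card, by rw [add_comm, card_add_card_compl], ?_⟩
  rw [← sum_add_sum_compl Y]
  have h1 : Y.card * Yᶜ.card ≤ ∑ u ∈ Y, (un_out (fun u v => ¬ un_Same G c u v) u).card := by
    refine le_trans (le_of_eq (by simp)) (sum_le_sum (f := fun _ => Yᶜ.card) fun u hu =>
      card_le_card fun v hv => un_mem_out.2 fun h => ?_)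
    rw [mem_compl, hm, not_not] at hv
    exact (hm u).1 hu (un_trans hv (un_symm h))
  have h2 : Yᶜ.card * Y.card ≤ ∑ u ∈ Yᶜ, (un_out (fun u v => ¬ un_Same G c u v) u).card := by
    refine le_trans (le_of_eq (by simp)) (sum_le_sum (f := fun _ => Y.card) fun u hu =>
      card_le_card fun v hv => un_mem_out.2 fun h => ?_)
    rw [mem_compl, hm, not_not] at hu
    exact (hm v).1 hv (un_trans hu h)
  rw [mul_comm Y.card] at h1
  omega

theorem un_num {n m y ρ : ℕ} (hn : 96 ≤ n) (h1 : n * y ≤ 2 * m * n) (h2 : n ≤ y ^ 2)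
    (h3 : ρ + y = n) (h4 : 2 * (ρ * y) ≤ 2 * m * n) : 2 * n ≤ 3 * m ^ 2 := by
  by_contra h
  have h5 : y ≤ 2 * m := by
    rw [mul_comm n] at h1
    exact Nat.le_of_mul_le_mul_right h1 (by omega)
  have h6 : 6 * m ≤ 5 * y := by
    by_contra h6
    nlinarith
  have h7 : 0 < y := by
    rcases y with _ | y
    · simp at h2; omega
    · omega
  have h8 : 6 * ρ ≤ 5 * n := by
    have : 6 * ρ * y ≤ 5 * n * y := by nlinarith
    exact Nat.le_of_mul_le_mul_right this h7
  have h9 : 8 ≤ m := by omega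
  nlinarith

theorem uni_bound : S_uni := by
  intro Ω _ _ G hP h2 hn x hx hx1
  obtain ⟨α, hα⟩ : ∃ α, x α ≠ α := by
    by_contra h
    push Not at h
    exact hx1 (Equiv.ext h)
  have : Nonempty Ω := ⟨α⟩
  have hm : (un_D G α (x α)).card ≤ x.support.card := card_le_card fun c hc =>
    mem_support.2 fun h => un_mem_D.1 hc ⟨x, hx, h, rfl⟩
  by_cases h : ∀ a w, un_Near G α (x α) a w
  · obtain ⟨c, hc⟩ := un_pairs fun a w => un_near_D hm (h a w)
    obtain ⟨a, -, ha⟩ := exists_min_image univ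
      (fun a => (un_out (fun u v => ¬ un_Same G c u v) a).card) univ_nonempty
    obtain ⟨ρ, h3, h4⟩ := un_two (G := G) c a
    refine un_num hn (le_trans ?_ hc) (un_sq' hP h2 (by omega) c a) h3 (h4.trans hc)
    exact le_trans (le_of_eq (by simp)) (sum_le_sum ha)
  · push Not at h
    obtain ⟨a, w, h⟩ := h
    exact un_far hP hα.symm hm h

end Pool.Agent.MP_3e5dca_al.H53
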