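import Pool.Agent.MP_3e5dca_al.H53.Design
import Pool.Agent.MP_3e5dca_al.H53.Lower

/-! The upper bound for stabilisers containing a large alternating group. -/

namespace Pool.Agent.MP_3e5dca_al.H53

open Finset Equiv Equiv.Perm MulAction

variable {Ω : Type} [Fintype Ω] [DecidableEq Ω]

theorem design_num (k β J m u : ℕ) (hk : k * (k + 1) + 4 ≤ 2 * Fintype.card Ω) (hβ : β < k)
    (hJ : J + β = 2 * k) (hu : u ≤ 2) (hm1 : 2 * Fintype.card Ω ≤ m * J + 2 * u)
    (hm2 : m * J + 3 ≤ 2 * Fintype.card Ω + J) :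
    ∃ (Y S : Fin m → Finset Ω) (U : Finset Ω), U.card = u ∧ (∀ i, (Y i).card = k) ∧
      (∀ i, S i ⊆ Y i) ∧ (∀ p, p ∉ U → ∃ i, p ∈ Y i) ∧
      (∀ i, ∀ p ∈ S i, ∀ q, (∀ l, p ∈ Y l ↔ q ∈ Y l) → q = p) ∧
      (∀ i, β ≤ (S i).card) ∧ (2 * Fintype.card Ω < m * J + 2 * u → ∃ i, β < (S i).card) := by
  set n := Fintype.card Ω with hn
  have hmJ : m * J + m * β = 2 * (m * k) := by rw [← mul_add, hJ]; ring
  obtain ⟨e, he⟩ : ∃ e, m * k + u = e + n := ⟨m * k + u - n, by omega⟩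
  have h2 : e ≤ m.choose 2 := by
    rw [Nat.choose_two_right, Nat.le_div_iff_mul_le (by norm_num)]
    rcases m with _ | m
    · have : 0 ≤ k * (k + 1) := Nat.zero_le _
      simp at he ⊢
      omega
    · have h5 : 2 * ((m + 1) * k) ≤ k * (k + 1) + (m + 1) * m := by
        zify
        rcases le_total (k : ℤ) m with h | h
        · nlinarith
        · by_cases h' : (k : ℤ) = m
          · rw [h']; nlinarith
          · have : (m : ℤ) + 1 ≤ k := by omega
            nlinarith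
      simp only [Nat.add_sub_cancel]
      omega
  have h3 : m ≤ k + 1 ∨ 2 * e ≤ m * k := by
    by_cases h : m ≤ k + 1
    · exact Or.inl h
    · right
      obtain ⟨m', rfl⟩ : ∃ m', m = m' + 1 := ⟨m - 1, by omega⟩
      have h6 : m' * (k + 1) ≤ m' * J := Nat.mul_le_mul_left _ (by omega)
      have h7 : (m' + 1) * J = m' * J + J := by ring
      have h8 : (m' + 1) * k = m' * k + k := by ring
      have h9 : m' * (k + 1) = m' * k + m' := by ring
      omega
  obtain ⟨Y, S, U, a1, a2, a3, a4, a5, a6, a7⟩ := design (Ω := Ω) m k u e he h2 h3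
  refine ⟨Y, S, U, a1, a2, a3, a4, a5, fun i => ?_, fun h => ?_⟩
  · by_contra hc
    have : ∑ l, (S l).card < ∑ _l : Fin m, β := by
      apply sum_lt_sum
      · intro l _
        have := a7 l i
        omega
      · exact ⟨i, mem_univ _, by omega⟩
    simp only [sum_const, card_univ, Fintype.card_fin, smul_eq_mul] at this
    omega
  · by_contra hc
    push Not at hc
    have : ∑ l, (S l).card ≤ ∑ _l : Fin m, β := sum_le_sum fun l _ => hc l
    simp only [sum_const, card_univ, Fintype.card_fin, smul_eq_mul] at this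
    omega

theorem triv_of_one (g : Perm Ω) (U : Finset Ω) (hU : U.card ≤ 1) (h : ∀ p, p ∉ U → g p = p) :
    g = 1 := by
  apply card_support_le_one.mp
  refine le_trans (card_le_card fun p hp => ?_) hU
  by_contra hc
  exact mem_support.mp hp (h p hc)

theorem triv_of_two (g : Perm Ω) (U : Finset Ω) (hU : U.card ≤ 2) (h : ∀ p, p ∉ U → g p = p)
    (hs : sign g = 1) : g = 1 := by
  have h1 : g.support.card ≤ 2 := by
    refine le_trans (card_le_card fun p hp => ?_) hU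
    by_contra hc
    exact mem_support.mp hp (h p hc)
  by_cases h2 : g.support.card = 2
  · have := (card_support_eq_two.mp h2).sign_eq
    rw [hs] at this
    exact absurd this (by decide)
  · exact card_support_le_one.mp (by omega)

variable {X : Type} [MulAction (Perm Ω) X]

theorem conj_mem {x : X} {g σ : Perm Ω} (h : g • σ • x = σ • x) :
    σ⁻¹ * g * σ ∈ stabilizer (Perm Ω) x := by
  rw [mem_stabilizer_iff, mul_smul, mul_smul, h, inv_smul_smul]

theorem conj_pres {x : X} {Y Y' : Finset Ω}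
    (hT : ∀ g ∈ stabilizer (Perm Ω) x, ∀ p, g p ∈ Y ↔ p ∈ Y) {g σ : Perm Ω}
    (hσ : ∀ p, σ p ∈ Y' ↔ p ∈ Y) (h : g • σ • x = σ • x) (p : Ω) : g p ∈ Y' ↔ p ∈ Y' := by
  have h1 := hT _ (conj_mem h) (σ⁻¹ p)
  rw [← hσ, ← hσ] at h1
  simpa using h1

theorem up_core {x : X} {Y0 : Finset Ω} (hT : Typ (stabilizer (Perm Ω) x) Y0) {m : ℕ}
    (Y S : Fin m → Finset Ω) (hY : ∀ i, (Y i).card = Y0.card) (hS : ∀ i, S i ⊆ Y i)
    (huniq : ∀ i, ∀ p ∈ S i, ∀ q, (∀ l, p ∈ Y l ↔ q ∈ Y l) → q = p)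
    (B : Fin m → Finset Ω) (hB : ∀ i, B i ⊆ Y0) (hc : ∀ i, (B i).card ≤ (S i).card) :
    ∃ A : Finset X, A.card ≤ m ∧ ∀ g : Perm Ω, (∀ a ∈ A, g • a = a) → ∀ i, ∃ h : Perm Ω,
      h ∈ stabilizer (Perm Ω) x ∧ sign h = sign g ∧ (∀ p ∈ B i, h p = p) ∧
      ((∀ p ∈ Y0, h p = p) → ∀ p ∈ Y i, g p = p) := by
  classical
  have := fun i => perm_map (B i) Y0 (S i) (Y i) (hB i) (hS i) (hc i) (hY i).symm
  choose σ hσ1 hσ2 using this
  refine ⟨univ.image (fun i => σ i • x), card_image_le.trans (by simp), fun g hg i => ?_⟩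
  have hg' : ∀ l, g • σ l • x = σ l • x := fun l => hg _ (mem_image_of_mem _ (mem_univ l))
  refine ⟨(σ i)⁻¹ * g * σ i, conj_mem (hg' i), ?_, fun p hp => ?_, fun h p hp => ?_⟩
  · simp only [map_mul, map_inv]
    rw [mul_right_comm, inv_mul_cancel, one_mul]
  · have : g (σ i p) = σ i p :=
      huniq i _ (hσ2 i p hp) _ (fun l => (conj_pres hT.pres (hσ1 l) (hg' l) _).symm)
    simp [Perm.mul_apply, this]
  · have h1 : (σ i)⁻¹ p ∈ Y0 := by rw [← hσ1 i]; simpa using hp
    have h2 := h _ h1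
    simpa [Perm.mul_apply] using h2

theorem upper_sym {x : X} {Y0 B0 : Finset Ω} (hT : Typ (stabilizer (Perm Ω) x) Y0)
    (hsym : ∀ g : Perm Ω, (∀ p ∈ Y0, g p = p) → g ∈ stabilizer (Perm Ω) x)
    (hB : EBase (stabilizer (Perm Ω) x) Y0 B0) (J m : ℕ)
    (hk : Y0.card * (Y0.card + 1) + 4 ≤ 2 * Fintype.card Ω) (hβ : B0.card < Y0.card)
    (hJ : J + B0.card = 2 * Y0.card) (hm1 : 2 * Fintype.card Ω ≤ m * J + 2)
    (hm2 : m * J + 3 ≤ 2 * Fintype.card Ω + J) : HasBase (Perm Ω) X m := by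
  obtain ⟨Y, S, U, a1, a2, a3, a4, a5, a6, -⟩ :=
    design_num (Ω := Ω) Y0.card B0.card J m 1 hk hβ hJ (by norm_num) hm1 hm2
  obtain ⟨A, hA, hg⟩ := up_core hT Y S a2 a3 a5 (fun _ => B0) (fun _ => hB.1) a6
  have h2 : 1 < (Y0ᶜ).card := by
    rw [card_compl]
    have : 2 * Y0.card ≤ Y0.card * (Y0.card + 1) := by
      have : 1 ≤ Y0.card := by omega
      nlinarith
    omega
  obtain ⟨a, ha, b, hb, hab⟩ := one_lt_card.mp h2
  have hτ : ∀ p ∈ Y0, swap a b p = p := by
    intro p hp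
    apply swap_apply_of_ne_of_ne
    · rintro rfl; exact mem_compl.mp ha hp
    · rintro rfl; exact mem_compl.mp hb hp
  refine ⟨A, hA, fun g hgA => triv_of_one g U a1.le fun p hp => ?_⟩
  obtain ⟨i, hi⟩ := a4 p hp
  obtain ⟨h, h1, -, h3, h4⟩ := hg g hgA i
  apply h4 _ p hi
  rcases sign_cases h with hs | hs
  · exact hB.2 h h1 hs h3
  · intro q hq
    have := hB.2 (h * swap a b) (Subgroup.mul_mem _ h1 (hsym _ hτ)) (by simp [hs, hab])
      (fun r hr => by rw [Perm.mul_apply, hτ r (hB.1 hr), h3 r hr]) q hq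
    rwa [Perm.mul_apply, hτ q hq] at this

theorem upper_alt {x : X} {Y0 B0 B1 : Finset Ω} (hT : Typ (stabilizer (Perm Ω) x) Y0)
    (hB : EBase (stabilizer (Perm Ω) x) Y0 B0) (h01 : B0 ⊆ B1) (h1Y : B1 ⊆ Y0)
    (hodd : ∀ h ∈ stabilizer (Perm Ω) x, (∀ p ∈ B1, h p = p) → sign h = 1) (J m : ℕ)
    (hk : Y0.card * (Y0.card + 1) + 4 ≤ 2 * Fintype.card Ω) (hβ : B0.card < Y0.card)
    (hJ : J + B0.card = 2 * Y0.card) (hm1 : 2 * Fintype.card Ω ≤ m * J + 4)
    (hm2 : m * J + 3 ≤ 2 * Fintype.card Ω + J)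
    (hc : B1.card ≤ B0.card ∨ (B1.card ≤ B0.card + 1 ∧ 2 * Fintype.card Ω < m * J + 4)) :
    HasBase (Perm Ω) X m := by
  classical
  obtain ⟨Y, S, U, a1, a2, a3, a4, a5, a6, a7⟩ :=
    design_num (Ω := Ω) Y0.card B0.card J m 2 hk hβ hJ (by norm_num) hm1 hm2
  have hm0 : 0 < m := by
    rcases m with _ | m
    · have : 1 * (1 + 1) ≤ Y0.card * (Y0.card + 1) := Nat.mul_le_mul (by omega) (by omega)
      omega
    · omega
  obtain ⟨i0, hi0⟩ : ∃ i0, B1.card ≤ (S i0).card := by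
    rcases hc with hc | hc
    · exact ⟨⟨0, hm0⟩, hc.trans (a6 _)⟩
    · obtain ⟨i, hi⟩ := a7 hc.2
      exact ⟨i, by omega⟩
  obtain ⟨A, hA, hg⟩ := up_core hT Y S a2 a3 a5 (fun i => if i = i0 then B1 else B0)
    (fun i => by
      by_cases h : i = i0
      · simpa [h] using h1Y
      · simpa [h] using hB.1)
    (fun i => by
      by_cases h : i = i0
      · simpa [h] using hi0
      · simpa [h] using a6 i)
  refine ⟨A, hA, fun g hgA => ?_⟩
  have hs : sign g = 1 := by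
    obtain ⟨h, h1, h2, h3, -⟩ := hg g hgA i0
    rw [← h2]
    exact hodd h h1 (by simpa using h3)
  refine triv_of_two g U a1.le (fun p hp => ?_) hs
  obtain ⟨i, hi⟩ := a4 p hp
  obtain ⟨h, h1, h2, h3, h4⟩ := hg g hgA i
  apply h4 _ p hi
  apply hB.2 h h1 (h2.trans hs)
  intro q hq
  apply h3
  by_cases h : i = i0
  · simpa [h] using h01 hq
  · simpa [h] using hq

/-- The general upper bound `⌈2(n-1)/J⌉`. -/
theorem upper {x : X} {Y0 B0 : Finset Ω} (hT : Typ (stabilizer (Perm Ω) x) Y0)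
    (hB : EBase (stabilizer (Perm Ω) x) Y0 B0) (J m : ℕ)
    (hk : Y0.card * (Y0.card + 1) + 4 ≤ 2 * Fintype.card Ω) (hβ : B0.card < Y0.card)
    (hJ : J + B0.card = 2 * Y0.card) (hm1 : 2 * Fintype.card Ω ≤ m * J + 2)
    (hm2 : m * J + 3 ≤ 2 * Fintype.card Ω + J) : HasBase (Perm Ω) X m := by
  by_cases hsym : ∃ t ∈ stabilizer (Perm Ω) x, (∀ p ∈ Y0, t p = p) ∧ sign t = -1
  · obtain ⟨t, ht, htY, hts⟩ := hsym
    apply upper_sym hT _ hB J m hk hβ hJ hm1 hm2
    intro g hg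
    rcases sign_cases g with hs | hs
    · exact hT.alt g hs hg
    · have : g = t * (t⁻¹ * g) := by group
      rw [this]
      apply Subgroup.mul_mem _ ht
      apply hT.alt
      · simp [hs, hts]
      · intro p hp
        rw [Perm.mul_apply, hg p hp, Perm.inv_eq_iff_eq]
        exact (htY p hp).symm
  · push Not at hsym
    by_cases hex : ∃ t ∈ stabilizer (Perm Ω) x, (∀ p ∈ B0, t p = p) ∧ sign t = -1
    · obtain ⟨t, ht, htB, hts⟩ := hex
      have : ∃ y ∈ Y0, t y ≠ y := by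
        by_contra hc
        push Not at hc
        exact hsym t ht hc hts
      obtain ⟨y, hy, hty⟩ := this
      apply upper_alt hT hB (subset_insert y B0) (insert_subset hy hB.1) _ J m hk hβ hJ
        (by omega) hm2 (Or.inr ⟨card_insert_le _ _, by omega⟩)
      intro h hh hfix
      rcases sign_cases h with hs | hs
      · exact hs
      · exfalso
        have := hB.2 (h⁻¹ * t) (Subgroup.mul_mem _ (Subgroup.inv_mem _ hh) ht)
          (by simp [hs, hts]) (fun p hp => by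
            rw [Perm.mul_apply, htB p hp, Perm.inv_eq_iff_eq]
            exact (hfix p (mem_insert_of_mem hp)).symm) y hy
        rw [Perm.mul_apply, Perm.inv_eq_iff_eq, hfix y (mem_insert_self _ _)] at this
        exact hty this
    · push Not at hex
      apply upper_alt hT hB (Subset.refl _) hB.1 _ J m hk hβ hJ (by omega) hm2 (Or.inl le_rfl)
      intro h hh hfix
      rcases sign_cases h with hs | hs
      · exact hs
      · exact absurd hs (hex h hh hfix)

end Pool.Agent.MP_3e5dca_al.H53
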